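import Pool.Agent.Helper90.ZM2.Crn2

/-! ZOOM: the box of the label of a window is a corner with known slopes; its sheets are sheets of the corner. -/

set_option autoImplicit false

namespace Pool.Agent.Helper90.ZM2

open Finset Filter Topology Pool.Agent.Helper69.RK Pool.Agent.Helper31.EC Pool.Agent.Helper82.TP
open Pool.Agent.Helper79.NF Pool.Agent.Helper31.NSB Pool.Agent.Helper90.BLD Pool.Agent.Helper90.NBR
open Pool.Agent.Helper60.CS Pool.Agent.Helper8.PLK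
open Pool.Agent.Helper57.TA (sc sc_mul_mem sc_mul_mem_iff sc_add sc_zero mem_of_sc_mul sc_mem)
open Pool.Agent.Helper32.BF2 (exists_div lit_sc dg_sc_mul rest_sc)
open Pool.Agent.Helper3.LF (Mon)

noncomputable section

open Sp QS

variable {S : Sp} {H : RD S} {f : FR S} {w1 w ρ : ℝ} {Sc : Set ℝ} {s0 δ σ : ℝ}
  (zd : ZD H f w1 w Sc s0) (nm : Nm Sc w1 w s0 δ σ) (hb : Bdd (H.K s0))

section zero

include nm

theorem qz_zero_of {r : ℝ} {u g : QS S} (hr : 0 ≤ r) (hd : r + δ ≤ 1) (e : u = sc S r * g) (hu : u = 0) :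
    qz hb.toInf.1 δ nm.hδ nm.h1 g = 0 := by
  rw [qz_eq_zero]
  rw [hu] at e
  have h1 : sc S r * g ∈ Id S 1 := by
    rw [← e]
    exact Ideal.zero_mem _
  exact Id_anti (by linarith) (mem_of_sc_mul hr le_rfl h1)

theorem zero_t : (zFR zd hb δ nm.hδ nm.h1).t0 0 = 0 := by
  show qz _ _ _ _ (zd.t0 (s0 + δ * 0)) = 0
  rw [mul_zero, add_zero]
  exact qz_zero_of nm hb nm.n0 nm.d1 (zd.ht0 _ nm.hs0 le_rfl).1 (sub_self _)

theorem zero_y : (zFR zd hb δ nm.hδ nm.h1).y0 0 = 0 := by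
  show qz _ _ _ _ (zd.y0 (s0 + δ * 0)) = 0
  rw [mul_zero, add_zero]
  exact qz_zero_of nm hb nm.n0 nm.d1 (zd.hy0 _ nm.hs0 le_rfl).1 (sub_self _)

theorem zero_rt : (zFR zd hb δ nm.hδ nm.h1).rt 0 = 0 := by
  show qz _ _ _ _ (zd.rt (s0 + δ * 0)) = 0
  rw [mul_zero, add_zero]
  exact qz_zero_of nm hb (mul_nonneg (by linarith [nm.hw1]) nm.n0) nm.dF (zd.hrt _ nm.hs0 le_rfl).1 (sub_self _)

theorem zero_ry : (zFR zd hb δ nm.hδ nm.h1).ry 0 = 0 := by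
  show qz _ _ _ _ (zd.ry (s0 + δ * 0)) = 0
  rw [mul_zero, add_zero]
  exact qz_zero_of nm hb (mul_nonneg (by linarith [nm.hw1]) nm.n0) nm.dF (zd.hry _ nm.hs0 le_rfl).1 (sub_self _)

theorem zero_r0 : (zFR zd hb δ nm.hδ nm.h1).r0 0 = 0 := by
  show qz _ _ _ _ (zd.r0 (s0 + δ * 0)) = 0
  rw [mul_zero, add_zero]
  refine qz_zero_of nm hb (mul_nonneg (by linarith [nm.hw1]) nm.n0) nm.dR (zd.hr0 _ nm.hs0 le_rfl).1 ?_
  ring

theorem zero_c : (zFR zd hb δ nm.hδ nm.h1).c 0 = 0 := by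
  show qz _ _ _ _ (zd.c (s0 + δ * 0)) = 0
  rw [mul_zero, add_zero]
  refine qz_zero_of nm hb (mul_nonneg (by linarith [nm.hww]) nm.n0) ?_ (zd.hc _ nm.hs0 le_rfl).1 (sub_self _)
  have h1 := nm.dZ
  have h2 := mul_nonneg (show (0 : ℝ) ≤ w1 by linarith [nm.hw1]) nm.n0
  nlinarith

theorem zero_k0 : (zFR zd hb δ nm.hδ nm.h1).k0 0 = 0 := by
  show qz _ _ _ _ (zd.k0 (s0 + δ * 0)) = 0
  rw [mul_zero, add_zero]
  refine qz_zero_of nm hb (mul_nonneg (by linarith [nm.hw]) nm.n0) nm.dv (zd.hk0 _ nm.hs0 le_rfl).1 ?_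
  unfold A0
  ring

theorem zero_k1 : (zFR zd hb δ nm.hδ nm.h1).k1 0 = 0 := by
  show qz _ _ _ _ (zd.k1 (s0 + δ * 0)) = 0
  rw [mul_zero, add_zero]
  refine qz_zero_of nm hb (mul_nonneg (by linarith [nm.hw]) nm.n0) nm.dv (zd.hk1 _ nm.hs0 le_rfl).1 ?_
  unfold A1
  ring

theorem zero_z0 : (zFR zd hb δ nm.hδ nm.h1).z0 0 = 0 := by
  show qz _ _ _ _ (zd.z0 (s0 + δ * 0)) = 0
  rw [mul_zero, add_zero]
  refine qz_zero_of nm hb (mul_nonneg nm.w0.le nm.n0) nm.dZ.le (zd.hz0 _ nm.hs0 le_rfl).1 ?_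
  unfold A0 A1
  ring

end zero

section out
variable (cc : C0 H f w1 w Sc)
include cc

/-- SHEETS OF THE ZOOM ARE SHEETS -/
theorem out_back {D : ℕ} {v : ℝ}
    (ho : OutL (zRD zd hb δ nm.hδ nm.h1) (zFR zd hb δ nm.hδ nm.h1) w1 w D 0 0 v) :
    OutL H f w1 w D s0 s0 (δ * v) := by
  obtain ⟨hv0, -, hv1, E, hE, cA, cB, g, hA, hB, hAB, hbox, hz⟩ := ho
  have hδ0 := nm.hδ
  have h00 : s0 + δ * 0 = s0 := by rw [mul_zero, add_zero]
  have hv1' : v ≤ 1 := by rwa [mul_zero, zero_add] at hv1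
  have hs00 : s0 + δ * 0 ∈ Sc := by rw [h00]; exact nm.hs0
  refine ⟨by positivity, le_rfl, by nlinarith [nm.dZ], E, hE, ?_⟩
  -- coefficients
  have upA' : ∀ a, ∃ c : QS S, qz hb.toInf.1 δ nm.hδ nm.h1 c = cA a ∧ Lit (VAs H s0) c := by
    intro a
    obtain ⟨c, e, hc⟩ := upA zd nm hb cc le_rfl hs00 (hA a)
    exact ⟨c, e, by rwa [h00] at hc⟩
  have upB' : ∀ a, ∃ c : QS S, qz hb.toInf.1 δ nm.hδ nm.h1 c = cB a ∧ Lit (VBs H s0) c := by
    intro a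
    obtain ⟨c, e, hc⟩ := upB zd nm hb cc le_rfl hs00 (hB a)
    exact ⟨c, e, by rwa [h00] at hc⟩
  choose CA hCA LA using upA'
  choose CB hCB LB using upB'
  refine ⟨CA, CB, ![mk (zd.gB 0), mk (zd.gB 1), mk (zd.gB 2)], LA, LB, ?_, ⟨zd.hT, zd.hY, zd.hR⟩, ?_⟩
  · intro a
    have h1 := hAB a
    rw [← hCA, ← hCB, ← map_sub, sub_self, mul_zero, zero_add, qz_rest_mem hb.toInf δ nm.hδ nm.h1 E hE hv1'] at h1
    rw [sub_self, mul_zero, zero_add]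
    exact h1
  · -- the sheet
    obtain ⟨b1, b2, b3⟩ := hbox
    rw [zero_t zd nm hb, sub_zero, sc_zero, one_mul] at b1
    rw [zero_y zd nm hb, sub_zero, sc_zero, one_mul] at b2
    rw [zero_r0 zd nm hb, zero_rt zd nm hb, zero_ry zd nm hb, zero_mul, zero_mul, add_zero, add_zero, sub_zero,
      mul_zero, sc_zero, one_mul] at b3
    rw [zero_z0 zd nm hb, zero_k0 zd nm hb, zero_k1 zd nm hb, zero_c zd nm hb, zero_mul, zero_mul, zero_mul, add_zero,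
      add_zero, add_zero, sub_zero, mul_zero, sc_zero, one_mul, zero_add] at hz
    have hg : ∀ i, g i = qz hb.toInf.1 δ nm.hδ nm.h1 ((![mk (zd.gB 0), mk (zd.gB 1), mk (zd.gB 2)] : Fin 3 → QS S) i) := by
      intro i
      fin_cases i
      · exact b1.symm
      · exact b2.symm
      · exact b3.symm
    have e1 : (zRD zd hb δ nm.hδ nm.h1).z - ∑ a, cB a * ∏ i, g i ^ (a.1 i : ℕ) =
        qz hb.toInf.1 δ nm.hδ nm.h1 (mk (zd.gB 3) - ∑ a, CB a * ∏ i,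
          (![mk (zd.gB 0), mk (zd.gB 1), mk (zd.gB 2)] : Fin 3 → QS S) i ^ (a.1 i : ℕ)) := by
      rw [map_sub, map_sum]
      congr 1
      apply Finset.sum_congr rfl
      intro a _
      rw [map_mul, map_prod, hCB]
      congr 1
      apply Finset.prod_congr rfl
      intro i _
      rw [map_pow, hg]
    rw [e1, qz_rest_mem hb.toInf δ nm.hδ nm.h1 E hE hv1'] at hz
    have e2 : H.z - (f.z0 s0 + f.k0 s0 * H.t + f.k1 s0 * H.y + f.c s0 * H.R) -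
        sc S (w * s0) * ∑ a, CB a * ∏ i, (![mk (zd.gB 0), mk (zd.gB 1), mk (zd.gB 2)] : Fin 3 → QS S) i ^ (a.1 i : ℕ) =
        sc S (w * s0) * (mk (zd.gB 3) - ∑ a, CB a * ∏ i,
          (![mk (zd.gB 0), mk (zd.gB 1), mk (zd.gB 2)] : Fin 3 → QS S) i ^ (a.1 i : ℕ)) := by
      rw [mul_sub, ← zd.hZ]
      rfl
    rw [e2, map_mul, rest_sc]
    exact sc_mul_mem (mul_nonneg nm.w0.le nm.n0) hz

end out

section main
variable (cc : CC H f w1 w ρ Sc) (hd : Dns Sc σ)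
include nm cc

/-- digits of the base point in the zoom -/
theorem q_dig {D : ℝ} (hD : D ≤ δ) {X : S.L} (hX : H.κ s0 ≤ X) (h0 : dg (mk (zd.gB 0)) D ≤ X)
    (h2 : dg (mk (zd.gB 1)) D ≤ X) : dg H.t (s0 + D) ⊔ dg H.y (s0 + D) ≤ X := by
  have hsD : s0 + D ≤ 1 := by linarith [nm.d1]
  rw [dgT zd nm hD] at h0
  rw [dgY zd nm hD] at h2
  exact sup_le ((t_hat nm cc.toC0 hsD).trans (sup_le h0 hX)) ((y_hat nm cc.toC0 hsD).trans (sup_le h2 hX))

include hd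

theorem z_ht (h1 : 1 < w1) {N σ' D N1 N2 : ℝ} (hN : NBraw H f w1 w s0 N) (hσ0 : 0 < σ') (hσ' : s0 + δ * σ' ∈ Sc)
    (hD : D ≤ δ) (hDσ : s0 + D < σ) (hN10 : 0 < N1) (hN1N : N1 ≤ N) (hN1D : N1 ≤ D) (hN1w : N1 < (w1 - 1) * D)
    (hN1σ : N1 ≤ (w1 - 1) * (δ * σ')) (hN20 : 0 < N2) (hN21 : N2 ≤ N1) (hN2w : N2 < (w1 - 1) * N1)
    (hN2v : w1 * N2 < (w - 1) * N1) :
    HT (zRD zd hb δ nm.hδ nm.h1) (zFR zd hb δ nm.hδ nm.h1) w1 w ρ σ' (N1 / δ) (N2 / δ) (zSc Sc s0 δ σ') := by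
  have hδ0 := nm.hδ
  have n0 := nm.n0
  have hww := nm.hww
  have hw : 1 < w := lt_of_lt_of_le h1 hww
  have hwσ := nm.hwσ
  have hσS : σ' ∈ zSc Sc s0 δ σ' := ⟨hσ0.le, le_rfl, hσ'⟩
  have hs2 := nm.le _ hσ'
  have e1 : δ * (N1 / δ) = N1 := by field_simp
  have e2 : δ * (N2 / δ) = N2 := by field_simp
  have hN1δ : N1 ≤ δ := hN1D.trans hD
  have hN2δ : N2 ≤ δ := hN21.trans hN1δ
  have u1 : N1 / δ ≤ 1 := (div_le_one hδ0).mpr hN1δ
  have u2 : N2 / δ ≤ 1 := (div_le_one hδ0).mpr hN2δ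
  have hw1D : w1 * (s0 + D) ≤ 1 := by nlinarith
  -- slopes
  have rF := red_F cc.toC0 h1 hd nm.hs0 ((dg_mono _ (by linarith)).trans hN.F) hN10 hN1D hN1w hDσ hw1D
  have hsN : s0 + N1 < σ := by linarith
  have rv := nbr cc.toC0 h1 hw nm.le hd nm.hs0 hN (N' := N2) (D := N1) hN20 (hN21.trans hN1N) hN21 hN2w hN2v hsN
    (by nlinarith) (by nlinarith)
  refine {
    cc := z_cc zd nm hb cc hd hσ0.le
    le := fun s hs => hs.2.1
    dns := ?_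
    hσS := hσS
    lfq := ?_
    slope := ?_
    slope1 := ?_
    hσ := hσ0
    hu := by positivity
    hr1 := by positivity
    hr := by gcongr
    hu1 := by
      rw [div_le_iff₀ hδ0]
      linarith
    hw1σ := nm.w1z hσ0.le hσ'
    hw1 := h1
    hle := hww }
  · intro a b ha hab hb'
    obtain ⟨s, hs, c1, c2⟩ := hd (s0 + δ * a) (s0 + δ * b) (by positivity) (by nlinarith)
      ((by nlinarith : s0 + δ * b ≤ s0 + δ * σ').trans hs2)
    have e3 : s0 + δ * ((s - s0) / δ) = s := by field_simp; ring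
    have c3 : a < (s - s0) / δ := by rw [lt_div_iff₀ hδ0]; linarith
    have c4 : (s - s0) / δ < b := by rw [div_lt_iff₀ hδ0]; linarith
    exact ⟨(s - s0) / δ, ⟨ha.trans c3.le, c4.le.trans hb', by rw [e3]; exact hs⟩, c3, c4⟩
  · have a1 : dg (zRD zd hb δ nm.hδ nm.h1).F (N1 / δ) = chgL hb.toInf.1 δ nm.hδ (dg (mk (zd.gA 2)) (δ * (N1 / δ))) :=
      z_dg hb δ nm.hδ nm.h1 _ u1
    have a2 : (zRD zd hb δ nm.hδ nm.h1).q ⊔ dg (zRD zd hb δ nm.hδ nm.h1).x 1 = chgL hb.toInf.1 δ nm.hδ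
        (dg (mk (zd.gB 0)) (δ * 1) ⊔ dg (mk (zd.gB 1)) (δ * 1) ⊔ dg H.x (δ * 1)) := by
      have b1 : dg (zRD zd hb δ nm.hδ nm.h1).t 1 = chgL hb.toInf.1 δ nm.hδ (dg (mk (zd.gB 0)) (δ * 1)) :=
        z_dg hb δ nm.hδ nm.h1 _ le_rfl
      have b2 : dg (zRD zd hb δ nm.hδ nm.h1).y 1 = chgL hb.toInf.1 δ nm.hδ (dg (mk (zd.gB 1)) (δ * 1)) :=
        z_dg hb δ nm.hδ nm.h1 _ le_rfl
      have b3 : dg (zRD zd hb δ nm.hδ nm.h1).x 1 = chgL hb.toInf.1 δ nm.hδ (dg H.x (δ * 1)) :=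
        z_dg hb δ nm.hδ nm.h1 _ le_rfl
      unfold HD0.q
      rw [b1, b2, b3, chgL_sup, chgL_sup]
    rw [a1, a2, e1, mul_one, ch_le, dgF zd nm hN1δ]
    refine rF.trans (sup_le le_sup_right (sup_le ?_ ?_))
    · exact q_dig zd nm cc hD le_sup_right
        ((dg_mono _ hD).trans ((le_sup_left.trans le_sup_left).trans le_sup_left))
        ((dg_mono _ hD).trans ((le_sup_right.trans le_sup_left).trans le_sup_left))
    · exact (dg_mono _ hD).trans (le_sup_right.trans le_sup_left)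
  · have a1 : dg (zRD zd hb δ nm.hδ nm.h1).v (N2 / δ) = chgL hb.toInf.1 δ nm.hδ (dg (mk (zd.gA 4)) (δ * (N2 / δ))) :=
      z_dg hb δ nm.hδ nm.h1 _ u2
    have a2 : (zRD zd hb δ nm.hδ nm.h1).iso (N1 / δ) ⊔ dg (zRD zd hb δ nm.hδ nm.h1).x (N1 / δ) =
        chgL hb.toInf.1 δ nm.hδ (dg (mk (zd.gB 0)) (δ * (N1 / δ)) ⊔ dg (mk (zd.gB 1)) (δ * (N1 / δ)) ⊔
          dg (mk (zd.gB 2)) (δ * (N1 / δ)) ⊔ dg H.x (δ * (N1 / δ))) := by
      have b1 : dg (zRD zd hb δ nm.hδ nm.h1).t (N1 / δ) = chgL hb.toInf.1 δ nm.hδ (dg (mk (zd.gB 0)) (δ * (N1 / δ))) :=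
        z_dg hb δ nm.hδ nm.h1 _ u1
      have b2 : dg (zRD zd hb δ nm.hδ nm.h1).y (N1 / δ) = chgL hb.toInf.1 δ nm.hδ (dg (mk (zd.gB 1)) (δ * (N1 / δ))) :=
        z_dg hb δ nm.hδ nm.h1 _ u1
      have b3 : dg (zRD zd hb δ nm.hδ nm.h1).x (N1 / δ) = chgL hb.toInf.1 δ nm.hδ (dg H.x (δ * (N1 / δ))) :=
        z_dg hb δ nm.hδ nm.h1 _ u1
      have b4 : dg (zRD zd hb δ nm.hδ nm.h1).R (N1 / δ) = chgL hb.toInf.1 δ nm.hδ (dg (mk (zd.gB 2)) (δ * (N1 / δ))) :=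
        z_dg hb δ nm.hδ nm.h1 _ u1
      unfold HD0.iso
      rw [b1, b2, b3, b4, chgL_sup, chgL_sup, chgL_sup]
    rw [a1, a2, e1, e2, ch_le, dgv zd nm hN2δ]
    refine rv.v.trans (sup_le le_sup_right (sup_le (sup_le ?_ ?_) ?_))
    · exact q_dig zd nm cc hN1δ le_sup_right
        (((le_sup_left.trans le_sup_left).trans le_sup_left).trans le_sup_left)
        (((le_sup_right.trans le_sup_left).trans le_sup_left).trans le_sup_left)
    · rw [← dgR zd nm hN1δ]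
      exact (le_sup_right.trans le_sup_left).trans le_sup_left
    · exact le_sup_right.trans le_sup_left
  · intro hww1
    have a1 : dg (zRD zd hb δ nm.hδ nm.h1).v (N2 / δ) = chgL hb.toInf.1 δ nm.hδ (dg (mk (zd.gA 4)) (δ * (N2 / δ))) :=
      z_dg hb δ nm.hδ nm.h1 _ u2
    have b1 : dg (zRD zd hb δ nm.hδ nm.h1).t (N1 / δ) = chgL hb.toInf.1 δ nm.hδ (dg (mk (zd.gB 0)) (δ * (N1 / δ))) :=
      z_dg hb δ nm.hδ nm.h1 _ u1
    have b2 : dg (zRD zd hb δ nm.hδ nm.h1).y (N1 / δ) = chgL hb.toInf.1 δ nm.hδ (dg (mk (zd.gB 1)) (δ * (N1 / δ))) :=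
      z_dg hb δ nm.hδ nm.h1 _ u1
    have b3 : dg (zRD zd hb δ nm.hδ nm.h1).x (N1 / δ) = chgL hb.toInf.1 δ nm.hδ (dg H.x (δ * (N1 / δ))) :=
      z_dg hb δ nm.hδ nm.h1 _ u1
    rw [a1, b1, b2, b3, ← chgL_sup, ← chgL_sup, e1, e2, ch_le, dgv zd nm hN2δ]
    refine (rv.v1 hww1).trans (sup_le le_sup_right (sup_le ?_ ?_))
    · exact q_dig zd nm cc hN1δ le_sup_right
        ((le_sup_left.trans le_sup_left).trans le_sup_left)
        ((le_sup_right.trans le_sup_left).trans le_sup_left)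
    · exact le_sup_right.trans le_sup_left

end main

/-- **row B_ZOOM** -/
theorem st_zoom : ST_ZOOM := by
  intro S H f w1 w ρ σ Sc cc h1 hww hσ hwσ hle hd s0 hs0 h0 hlt N hN
  have hw : 1 < w := lt_of_lt_of_le h1 hww
  have hw0 : 0 < w := by linarith
  have nm : Nm Sc w1 w s0 (1 - w * s0) σ := {
    hw1 := h1.le
    hww := hww
    n0 := h0.le
    hs0 := hs0
    hδ := by nlinarith
    he := rfl
    hwσ := hwσ
    le := hle }
  have hδ0 := nm.hδ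
  obtain ⟨zd⟩ := exists_ZD cc.toC0 hle hd hwσ hww hs0
  obtain ⟨s2, hs2, a1, a2⟩ := hd s0 σ h0.le hlt le_rfl
  have hb := cc.bdd s0 hs0
  set δ : ℝ := 1 - w * s0 with hδ
  have e1 : s0 + δ * ((s2 - s0) / δ) = s2 := by field_simp; ring
  have e2 : δ * ((s2 - s0) / δ) = s2 - s0 := by field_simp
  have hDδ : s2 - s0 ≤ δ := by
    have : w * s2 ≤ 1 := nm.ws hs2
    nlinarith
  have hN0 := hN.pos
  -- numbers
  set D : ℝ := (s2 - s0) / 2 with hD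
  have hD0 : 0 < D := by rw [hD]; linarith
  set m1 : ℝ := min N (min D ((w1 - 1) * D)) with hm1
  have hm10 : 0 < m1 := lt_min hN0 (lt_min hD0 (mul_pos (by linarith) hD0))
  have hm1a : m1 ≤ N := min_le_left _ _
  have hm1b : m1 ≤ D := (min_le_right _ _).trans (min_le_left _ _)
  have hm1c : m1 ≤ (w1 - 1) * D := (min_le_right _ _).trans (min_le_right _ _)
  set N1 : ℝ := m1 / 2 with hN1
  have hN10 : 0 < N1 := by rw [hN1]; linarith
  set m2 : ℝ := min N1 (min ((w1 - 1) * N1) ((w - 1) * N1 / w1)) with hm2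
  have hm20 : 0 < m2 := lt_min hN10 (lt_min (mul_pos (by linarith) hN10)
    (div_pos (mul_pos (by linarith) hN10) (by linarith)))
  have hm2a : m2 ≤ N1 := min_le_left _ _
  have hm2b : m2 ≤ (w1 - 1) * N1 := (min_le_right _ _).trans (min_le_left _ _)
  have hm2c : m2 ≤ (w - 1) * N1 / w1 := (min_le_right _ _).trans (min_le_right _ _)
  rw [le_div_iff₀ (by linarith : 0 < w1)] at hm2c
  have hht := z_ht zd nm hb cc hd h1 (σ' := (s2 - s0) / δ) (D := D) (N1 := N1) (N2 := m2 / 2) hN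
    (div_pos (by linarith) hδ0) (by rw [e1]; exact hs2) (by linarith) (by linarith) hN10 (by linarith) (by linarith)
    (by linarith) (by rw [e2]; nlinarith) (by linarith) (by linarith) (by linarith) (by nlinarith)
  exact ⟨_, zRD zd hb δ nm.hδ nm.h1, zFR zd hb δ nm.hδ nm.h1, ρ, (s2 - s0) / δ, N1 / δ, m2 / 2 / δ,
    zSc Sc s0 δ ((s2 - s0) / δ), hht, fun v' ho => ⟨δ * v', out_back zd nm hb cc.toC0 ho⟩⟩

end

end Pool.Agent.Helper90.ZM2
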