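import Pool.Agent.Helper90.ZM2.Def

/-! The zoomed corner: the line, the point, labels, time. -/

set_option autoImplicit false

namespace Pool.Agent.Helper90.ZM2

open Finset Filter Topology Pool.Agent.Helper69.RK Pool.Agent.Helper31.EC Pool.Agent.Helper82.TP
open Pool.Agent.Helper79.NF Pool.Agent.Helper31.NSB Pool.Agent.Helper90.BLD Pool.Agent.Helper90.NBR
open Pool.Agent.Helper60.CS Pool.Agent.Helper8.PLK
open Pool.Agent.Helper57.TA (sc sc_mul_mem sc_mul_mem_iff sc_add sc_zero mem_of_sc_mul sc_mem)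
open Pool.Agent.Helper32.BF2 (exists_div lit_sc dg_sc_mul)

noncomputable section

open Sp QS

variable {S : Sp} {H : RD S} {f : FR S} {w1 w : ℝ} {Sc : Set ℝ} {s0 : ℝ}

/-- numbers of the zoom -/
structure Nm (Sc : Set ℝ) (w1 w s0 δ σ : ℝ) : Prop where
  hw1 : 1 ≤ w1
  hww : w1 ≤ w
  n0 : 0 ≤ s0
  hs0 : s0 ∈ Sc
  hδ : 0 < δ
  he : δ = 1 - w * s0
  hwσ : w * σ = 1
  le : ∀ s ∈ Sc, s ≤ σ

namespace Nm

variable {δ σ : ℝ} (nm : Nm Sc w1 w s0 δ σ)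
include nm

theorem hw : 1 ≤ w := nm.hw1.trans nm.hww
theorem w0 : 0 < w := lt_of_lt_of_le one_pos nm.hw
theorem h1 : δ ≤ 1 := by
  have := mul_nonneg nm.w0.le nm.n0
  rw [nm.he]
  linarith
theorem d1 : s0 + δ ≤ 1 := by
  have := nm.n0
  have := nm.hw
  rw [nm.he]
  nlinarith
theorem dR : w1 * s0 + δ ≤ 1 := by
  have := nm.n0
  have := nm.hww
  rw [nm.he]
  nlinarith
theorem dZ : w * s0 + δ = 1 := by
  rw [nm.he]
  ring
theorem dF : (w1 - 1) * s0 + δ ≤ 1 := by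
  have := nm.n0
  have := nm.dR
  nlinarith
theorem dv : (w - 1) * s0 + δ ≤ 1 := by
  have := nm.n0
  have := nm.dZ
  nlinarith
theorem ws {s : ℝ} (hs : s ∈ Sc) : w * s ≤ 1 := (mul_le_mul_of_nonneg_left (nm.le s hs) nm.w0.le).trans nm.hwσ.le
theorem wz {s : ℝ} (hs : s0 + δ * s ∈ Sc) : w * s ≤ 1 := by
  have h1 := nm.ws hs
  have h2 := nm.dZ
  have h3 := nm.hδ
  have h4 : δ * (w * s) ≤ δ * 1 := by nlinarith
  exact le_of_mul_le_mul_left h4 h3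
theorem w1z {s : ℝ} (hn : 0 ≤ s) (hs : s0 + δ * s ∈ Sc) : w1 * s ≤ 1 :=
  (mul_le_mul_of_nonneg_right nm.hww hn).trans (nm.wz hs)
theorem z1 {s : ℝ} (hn : 0 ≤ s) (hs : s0 + δ * s ∈ Sc) : s ≤ 1 :=
  (le_mul_of_one_le_left hn nm.hw).trans (nm.wz hs)
theorem sle {s : ℝ} (hn : 0 ≤ s) : s0 ≤ s0 + δ * s := by
  have := mul_nonneg nm.hδ.le hn
  linarith

end Nm

section
variable {δ σ : ℝ} (zd : ZD H f w1 w Sc s0) (nm : Nm Sc w1 w s0 δ σ) (hb : Bdd (H.K s0))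

include nm

/-- digits of the rescaled functions -/
theorem dgT {r : ℝ} (hr : r ≤ δ) : dg (mk (zd.gB 0)) r = dg (H.t - f.t0 s0) (s0 + r) :=
  dg_of_sc nm.n0 (by linarith [nm.d1]) zd.hT
theorem dgY {r : ℝ} (hr : r ≤ δ) : dg (mk (zd.gB 1)) r = dg (H.y - f.y0 s0) (s0 + r) :=
  dg_of_sc nm.n0 (by linarith [nm.d1]) zd.hY
theorem dgR {r : ℝ} (hr : r ≤ δ) : dg (mk (zd.gB 2)) r = dg (Rh H f s0) (w1 * s0 + r) :=
  dg_of_sc (mul_nonneg (by linarith [nm.hw1]) nm.n0) (by linarith [nm.dR]) zd.hR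
theorem dgZ {r : ℝ} (hr : r ≤ δ) : dg (mk (zd.gB 3)) r = dg (Zh H f s0) (w * s0 + r) :=
  dg_of_sc (mul_nonneg nm.w0.le nm.n0) (by linarith [nm.dZ]) zd.hZ
theorem dgF {r : ℝ} (hr : r ≤ δ) : dg (mk (zd.gA 2)) r = dg (Fh H f s0) ((w1 - 1) * s0 + r) :=
  dg_of_sc (mul_nonneg (by linarith [nm.hw1]) nm.n0) (by linarith [nm.dF]) zd.hF
theorem dgv {r : ℝ} (hr : r ≤ δ) : dg (mk (zd.gA 4)) r = dg (vh H f s0) ((w - 1) * s0 + r) :=
  dg_of_sc (mul_nonneg (by linarith [nm.hw]) nm.n0) (by linarith [nm.dv]) zd.hv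

/-- the intercepts of the zoomed line -/
theorem z_a : (zRD zd hb δ nm.hδ nm.h1).a = qz hb.toInf.1 δ nm.hδ nm.h1 (mk (zd.gA 1)) := by
  unfold HD0.a
  show qz _ _ _ _ (mk (zd.gB 1)) - qz _ _ _ _ (mk (zd.gB 0)) * qz _ _ _ _ H.x = _
  rw [← map_mul, ← map_sub, qz_eq]
  exact Id_anti (by linarith [nm.d1]) zd.ha

theorem z_cR : (zRD zd hb δ nm.hδ nm.h1).cR = qz hb.toInf.1 δ nm.hδ nm.h1 (mk (zd.gA 3)) := by
  unfold HD0.cR
  show qz _ _ _ _ (mk (zd.gB 2)) - qz _ _ _ _ (mk (zd.gB 0)) * qz _ _ _ _ (mk (zd.gA 2)) = _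
  rw [← map_mul, ← map_sub, qz_eq]
  exact Id_anti (by linarith [nm.dR]) zd.hcR

theorem z_az : (zRD zd hb δ nm.hδ nm.h1).az = qz hb.toInf.1 δ nm.hδ nm.h1 (mk (zd.gA 5)) := by
  unfold HD0.az
  show qz _ _ _ _ (mk (zd.gB 3)) - qz _ _ _ _ (mk (zd.gB 0)) * qz _ _ _ _ (mk (zd.gA 4)) = _
  rw [← map_mul, ← map_sub, qz_eq]
  exact Id_anti (by linarith [nm.dZ]) zd.haz

theorem z_x : (zRD zd hb δ nm.hδ nm.h1).x = qz hb.toInf.1 δ nm.hδ nm.h1 (mk (zd.gA 0)) := by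
  rw [zd.hx]
  rfl

/-- the information of the zoomed line -/
theorem z_iA : io (zRD zd hb δ nm.hδ nm.h1).VA = (zRD zd hb δ nm.hδ nm.h1).L := by
  have e := (cel_bdd (S := S.chg hb.toInf.1 δ nm.hδ) fun i => trc hb.toInf.1 δ nm.hδ (zd.gA i)).2
  refine e.trans ?_
  have hL : (zRD zd hb δ nm.hδ nm.h1).L = dg (qz hb.toInf.1 δ nm.hδ nm.h1 (mk (zd.gA 0))) 1 ⊔
      dg (qz hb.toInf.1 δ nm.hδ nm.h1 (mk (zd.gA 1))) 1 ⊔
      (dg (qz hb.toInf.1 δ nm.hδ nm.h1 (mk (zd.gA 2))) 1 ⊔ dg (qz hb.toInf.1 δ nm.hδ nm.h1 (mk (zd.gA 3))) 1) ⊔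
      (dg (qz hb.toInf.1 δ nm.hδ nm.h1 (mk (zd.gA 4))) 1 ⊔ dg (qz hb.toInf.1 δ nm.hδ nm.h1 (mk (zd.gA 5))) 1) := by
    unfold HD0.L
    rw [z_a zd nm hb, z_cR zd nm hb, z_az zd nm hb, z_x zd nm hb]
    rfl
  rw [hL]
  apply le_antisymm
  · refine Finset.sup_le fun i _ => ?_
    fin_cases i
    · exact (le_sup_left.trans le_sup_left).trans le_sup_left
    · exact (le_sup_right.trans le_sup_left).trans le_sup_left
    · exact (le_sup_left.trans le_sup_right).trans le_sup_left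
    · exact (le_sup_right.trans le_sup_right).trans le_sup_left
    · exact le_sup_left.trans le_sup_right
    · exact le_sup_right.trans le_sup_right
  · have k : ∀ i : Fin 6, dg (qz hb.toInf.1 δ nm.hδ nm.h1 (mk (zd.gA i))) 1 ≤
        Finset.univ.sup fun i => dg (mk (trc hb.toInf.1 δ nm.hδ (zd.gA i))) 1 := fun i =>
      Finset.le_sup (f := fun i => dg (mk (trc hb.toInf.1 δ nm.hδ (zd.gA i))) 1) (Finset.mem_univ i)
    exact sup_le (sup_le (sup_le (k 0) (k 1)) (sup_le (k 2) (k 3))) (sup_le (k 4) (k 5))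

theorem z_iB : io (zRD zd hb δ nm.hδ nm.h1).VB = (zRD zd hb δ nm.hδ nm.h1).B := by
  have e := (cel_bdd (S := S.chg hb.toInf.1 δ nm.hδ) fun i => trc hb.toInf.1 δ nm.hδ (zd.gB i)).2
  refine e.trans ?_
  apply le_antisymm
  · refine Finset.sup_le fun i _ => ?_
    fin_cases i
    · exact (le_sup_left.trans le_sup_left).trans le_sup_left
    · exact (le_sup_right.trans le_sup_left).trans le_sup_left
    · exact le_sup_right.trans le_sup_left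
    · exact le_sup_right
  · have k : ∀ i : Fin 4, dg (qz hb.toInf.1 δ nm.hδ nm.h1 (mk (zd.gB i))) 1 ≤
        Finset.univ.sup fun i => dg (mk (trc hb.toInf.1 δ nm.hδ (zd.gB i))) 1 := fun i =>
      Finset.le_sup (f := fun i => dg (mk (trc hb.toInf.1 δ nm.hδ (zd.gB i))) 1) (Finset.mem_univ i)
    exact sup_le (sup_le (sup_le (k 0) (k 1)) (k 2)) (k 3)

theorem z_lA : Lit (zRD zd hb δ nm.hδ nm.h1).VA (zRD zd hb δ nm.hδ nm.h1).x ∧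
    Lit (zRD zd hb δ nm.hδ nm.h1).VA (zRD zd hb δ nm.hδ nm.h1).a ∧
    Lit (zRD zd hb δ nm.hδ nm.h1).VA (zRD zd hb δ nm.hδ nm.h1).F ∧
    Lit (zRD zd hb δ nm.hδ nm.h1).VA (zRD zd hb δ nm.hδ nm.h1).cR ∧
    Lit (zRD zd hb δ nm.hδ nm.h1).VA (zRD zd hb δ nm.hδ nm.h1).v ∧
    Lit (zRD zd hb δ nm.hδ nm.h1).VA (zRD zd hb δ nm.hδ nm.h1).az := by
  have k : ∀ i : Fin 6, Lit (S := S.chg hb.toInf.1 δ nm.hδ) (zRD zd hb δ nm.hδ nm.h1).VA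
      (qz hb.toInf.1 δ nm.hδ nm.h1 (mk (zd.gA i))) := fun i =>
    cel_lit (S := S.chg hb.toInf.1 δ nm.hδ) (fun i => trc hb.toInf.1 δ nm.hδ (zd.gA i)) i
  rw [z_a zd nm hb, z_cR zd nm hb, z_az zd nm hb, z_x zd nm hb]
  exact ⟨k 0, k 1, k 2, k 3, k 4, k 5⟩

theorem z_lB : Lit (zRD zd hb δ nm.hδ nm.h1).VB (zRD zd hb δ nm.hδ nm.h1).t ∧
    Lit (zRD zd hb δ nm.hδ nm.h1).VB (zRD zd hb δ nm.hδ nm.h1).y ∧
    Lit (zRD zd hb δ nm.hδ nm.h1).VB (zRD zd hb δ nm.hδ nm.h1).R ∧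
    Lit (zRD zd hb δ nm.hδ nm.h1).VB (zRD zd hb δ nm.hδ nm.h1).z := by
  have k : ∀ i : Fin 4, Lit (S := S.chg hb.toInf.1 δ nm.hδ) (zRD zd hb δ nm.hδ nm.h1).VB
      (qz hb.toInf.1 δ nm.hδ nm.h1 (mk (zd.gB i))) := fun i =>
    cel_lit (S := S.chg hb.toInf.1 δ nm.hδ) (fun i => trc hb.toInf.1 δ nm.hδ (zd.gB i)) i
  exact ⟨k 0, k 1, k 2, k 3⟩

variable (cc : C0 H f w1 w Sc)
include cc

/-- line and point of the zoom are functions of line and point -/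
theorem L_le : (zRD zd hb δ nm.hδ nm.h1).L ≤ chgL hb.toInf.1 δ nm.hδ H.L := by
  rw [← z_iA zd nm hb]
  have e := (cel_bdd (S := S.chg hb.toInf.1 δ nm.hδ) fun i => trc hb.toInf.1 δ nm.hδ (zd.gA i)).2
  refine e.le.trans (Finset.sup_le fun i _ => ?_)
  show dg (qz hb.toInf.1 δ nm.hδ nm.h1 (mk (zd.gA i))) 1 ≤ _
  rw [z_dg hb δ nm.hδ nm.h1 _ le_rfl, ch_le, mul_one]
  have e1 : Lit (VAs H s0) (mk (zd.gA i)) := ⟨zd.gA i, rfl, zd.litA i⟩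
  have e2 := e1.dg_le (cc.bA.pair hb) nm.h1
  refine e2.trans ?_
  have e3 : io (VAs H s0) = io H.VA ⊔ io (H.K s0) := io_pair cc.bA hb
  rw [e3, cc.iA]
  rfl

theorem B_le : (zRD zd hb δ nm.hδ nm.h1).B ≤ chgL hb.toInf.1 δ nm.hδ H.B := by
  rw [← z_iB zd nm hb]
  have e := (cel_bdd (S := S.chg hb.toInf.1 δ nm.hδ) fun i => trc hb.toInf.1 δ nm.hδ (zd.gB i)).2
  refine e.le.trans (Finset.sup_le fun i _ => ?_)
  show dg (qz hb.toInf.1 δ nm.hδ nm.h1 (mk (zd.gB i))) 1 ≤ _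
  rw [z_dg hb δ nm.hδ nm.h1 _ le_rfl, ch_le, mul_one]
  have e1 : Lit (VBs H s0) (mk (zd.gB i)) := ⟨zd.gB i, rfl, zd.litB i⟩
  have e2 := e1.dg_le (cc.bB.pair hb) nm.h1
  refine e2.trans ?_
  have e3 : io (VBs H s0) = io H.VB ⊔ io (H.K s0) := io_pair cc.bB hb
  rw [e3, cc.iB]
  rfl

/-- time is full over the label of a window, up to the depth -/
theorem t_full {s : ℝ} (hn : 0 ≤ s) (hs : s0 + δ * s ∈ Sc) :
    δ - δ * s ≤ h (dg (mk (zd.gB 0)) δ) (H.κ (s0 + δ * s) ⊔ H.L) := by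
  have e1 := t_real cc hs (le1 cc hs ((mul_le_mul_of_nonneg_right nm.hww (cc.nn _ hs)).trans (nm.ws hs)))
  have hss := nm.sle hn
  have hκ := cc.mono s0 nm.hs0 _ hs hss
  have e2 : dg (H.t - f.t0 (s0 + δ * s)) 1 ≤ dg (H.t - f.t0 s0) 1 ⊔ (H.κ (s0 + δ * s) ⊔ H.L) := by
    have e3 : H.t - f.t0 (s0 + δ * s) = (H.t - f.t0 s0) + (f.t0 s0 - f.t0 (s0 + δ * s)) := by ring
    rw [e3]
    exact add_le1 le_sup_left ((sub_le1 ((t0K cc nm.hs0).trans hκ) (t0K cc hs)).trans (le_sup_left.trans le_sup_right))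
  have e3 := h_mono' e2
  have e4 : h (dg (H.t - f.t0 s0) 1) (H.κ (s0 + δ * s) ⊔ H.L) ≤
      h (dg (H.t - f.t0 s0) 1) (dg (H.t - f.t0 s0) (s0 + δ)) +
        h (dg (H.t - f.t0 s0) (s0 + δ)) (H.κ (s0 + δ * s) ⊔ H.L) := h_triangle' _ _ _
  have e5 := h_dg_dg (H.t - f.t0 s0) nm.d1
  rw [dgT zd nm le_rfl]
  linarith

end

end

end Pool.Agent.Helper90.ZM2
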