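import Pool.Agent.Helper90.ZM2.Bas

/-! The zoomed corner: the common fields. -/

set_option autoImplicit false

namespace Pool.Agent.Helper90.ZM2

open Finset Filter Topology Pool.Agent.Helper69.RK Pool.Agent.Helper31.EC Pool.Agent.Helper82.TP
open Pool.Agent.Helper79.NF Pool.Agent.Helper31.NSB Pool.Agent.Helper90.BLD Pool.Agent.Helper90.NBR
open Pool.Agent.Helper60.CS Pool.Agent.Helper8.PLK
open Pool.Agent.Helper57.TA (sc sc_mul_mem sc_mul_mem_iff sc_add sc_zero mem_of_sc_mul sc_mem)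
open Pool.Agent.Helper32.BF2 (exists_div lit_sc dg_sc_mul)

noncomputable section

section lat
variable {L : Type*} [PM L]

theorem h_three {A B C A' B' C' K : L} : h (A ⊔ B ⊔ C) K ≤ h (A' ⊔ B' ⊔ C') K + (h A A' + h B B' + h C C') := by
  have e1 := h_triangle (A ⊔ B ⊔ C) (A' ⊔ B' ⊔ C') K
  have e2 := h_sup_le (A ⊔ B) C ((A' ⊔ B' ⊔ C') ⊔ K)
  have e3 := h_sup_le A B ((A' ⊔ B' ⊔ C') ⊔ K)
  have a1 : h A ((A' ⊔ B' ⊔ C') ⊔ K) ≤ h A A' := h_anti ((le_sup_left.trans le_sup_left).trans le_sup_left)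
  have a2 : h B ((A' ⊔ B' ⊔ C') ⊔ K) ≤ h B B' := h_anti ((le_sup_right.trans le_sup_left).trans le_sup_left)
  have a3 : h C ((A' ⊔ B' ⊔ C') ⊔ K) ≤ h C C' := h_anti (le_sup_right.trans le_sup_left)
  linarith

end lat

open Sp QS

variable {S : Sp} {H : RD S} {f : FR S} {w1 w ρ : ℝ} {Sc : Set ℝ} {s0 δ σ : ℝ}
  (zd : ZD H f w1 w Sc s0) (nm : Nm Sc w1 w s0 δ σ) (hb : Bdd (H.K s0)) (cc : C0 H f w1 w Sc)

include nm cc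

theorem w1s {s : ℝ} (hs : s ∈ Sc) : w1 * s ≤ 1 := (mul_le_mul_of_nonneg_right nm.hww (cc.nn _ hs)).trans (nm.ws hs)

/-- digits of `t` and of `t` relative to the centre -/
theorem t_hat {r : ℝ} (hr : r ≤ 1) : dg H.t r ≤ dg (H.t - f.t0 s0) r ⊔ H.κ s0 := by
  have e : H.t = (H.t - f.t0 s0) + f.t0 s0 := by ring
  conv_lhs => rw [e]
  exact dg_add_le' _ _ hr le_sup_left (((dg_mono _ hr).trans (t0K cc nm.hs0)).trans le_sup_right)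

theorem t_hat' {r : ℝ} (hr : r ≤ 1) : dg (H.t - f.t0 s0) r ≤ dg H.t r ⊔ H.κ s0 :=
  dg_sub_le' _ _ hr le_sup_left (((dg_mono _ hr).trans (t0K cc nm.hs0)).trans le_sup_right)

theorem y_hat {r : ℝ} (hr : r ≤ 1) : dg H.y r ≤ dg (H.y - f.y0 s0) r ⊔ H.κ s0 := by
  have e : H.y = (H.y - f.y0 s0) + f.y0 s0 := by ring
  conv_lhs => rw [e]
  exact dg_add_le' _ _ hr le_sup_left (((dg_mono _ hr).trans (y0K cc nm.hs0)).trans le_sup_right)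

theorem y_hat' {r : ℝ} (hr : r ≤ 1) : dg (H.y - f.y0 s0) r ≤ dg H.y r ⊔ H.κ s0 :=
  dg_sub_le' _ _ hr le_sup_left (((dg_mono _ hr).trans (y0K cc nm.hs0)).trans le_sup_right)

/-- time -/
theorem z_time : h (dg (zRD zd hb δ nm.hδ nm.h1).t 1) (zRD zd hb δ nm.hδ nm.h1).L = 1 := by
  apply le_antisymm (h_dg_le_one _ _)
  refine le_trans ?_ (h_anti (L_le zd nm hb cc))
  have e1 : dg (zRD zd hb δ nm.hδ nm.h1).t 1 = chgL hb.toInf.1 δ nm.hδ (dg (mk (zd.gB 0)) (δ * 1)) :=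
    z_dg hb δ nm.hδ nm.h1 _ le_rfl
  rw [e1, ch_h, mul_one, le_div_iff₀ nm.hδ, one_mul]
  have e2 := t_full zd nm cc (s := 0) le_rfl (by rw [mul_zero, add_zero]; exact nm.hs0)
  rw [mul_zero, add_zero, sub_zero, sup_comm] at e2
  exact e2

theorem tdig_le {s : ℝ} (hn : 0 ≤ s) (hs : s0 + δ * s ∈ Sc) :
    dg (mk (zd.gB 0)) (δ * s) ≤ H.κ (s0 + δ * s) := by
  have hδs : δ * s ≤ δ := by
    have := nm.z1 hn hs
    have := nm.hδ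
    nlinarith
  have hs1 := le1 cc hs (w1s nm cc hs)
  rw [dgT zd nm hδs]
  exact (t_hat' nm cc hs1).trans (sup_le (tsK cc hs hs1) (cc.mono s0 nm.hs0 _ hs (nm.sle hn)))

/-- labels do not see time -/
theorem z_leakA {s : ℝ} (hn : 0 ≤ s) (hs : s0 + δ * s ∈ Sc) :
    I ((zRD zd hb δ nm.hδ nm.h1).κ s) (dg (zRD zd hb δ nm.hδ nm.h1).t 1)
      ((zRD zd hb δ nm.hδ nm.h1).L ⊔ dg (zRD zd hb δ nm.hδ nm.h1).t s) = 0 := by
  have hs1 : s ≤ 1 := nm.z1 hn hs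
  rw [I_zero_iff_h']
  apply le_antisymm (h_anti le_sup_right)
  have e1 : h (dg (zRD zd hb δ nm.hδ nm.h1).t 1) ((zRD zd hb δ nm.hδ nm.h1).L ⊔ dg (zRD zd hb δ nm.hδ nm.h1).t s) ≤
      1 - s := (h_anti le_sup_right).trans (h_dg_dg _ hs1)
  refine e1.trans ?_
  have e2 : (zRD zd hb δ nm.hδ nm.h1).κ s ⊔ ((zRD zd hb δ nm.hδ nm.h1).L ⊔ dg (zRD zd hb δ nm.hδ nm.h1).t s) ≤
      chgL hb.toInf.1 δ nm.hδ (H.κ (s0 + δ * s) ⊔ H.L) := by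
    rw [z_κ zd hb δ nm.hδ nm.h1 (cc.bdd _ hs)]
    refine sup_le (chgL_mono _ _ _ le_sup_left) (sup_le ((L_le zd nm hb cc).trans (chgL_mono _ _ _ le_sup_right)) ?_)
    have e3 : dg (zRD zd hb δ nm.hδ nm.h1).t s = chgL hb.toInf.1 δ nm.hδ (dg (mk (zd.gB 0)) (δ * s)) :=
      z_dg hb δ nm.hδ nm.h1 _ hs1
    rw [e3]
    exact chgL_mono _ _ _ ((tdig_le zd nm cc hn hs).trans le_sup_left)
  refine le_trans ?_ (h_anti e2)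
  have e3 : dg (zRD zd hb δ nm.hδ nm.h1).t 1 = chgL hb.toInf.1 δ nm.hδ (dg (mk (zd.gB 0)) (δ * 1)) :=
    z_dg hb δ nm.hδ nm.h1 _ le_rfl
  rw [e3, ch_h, mul_one, le_div_iff₀ nm.hδ]
  have e4 : H.κ (s0 + δ * s) ⊔ H.L ⊔ H.κ s0 = H.κ (s0 + δ * s) ⊔ H.L :=
    sup_eq_left.mpr ((cc.mono s0 nm.hs0 _ hs (nm.sle hn)).trans le_sup_left)
  rw [e4]
  have e5 := t_full zd nm cc hn hs
  linarith

/-- the direction -/
theorem z_T1 {s : ℝ} (hn : 0 ≤ s) (hs : s0 + δ * s ∈ Sc) :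
    I (dg (zRD zd hb δ nm.hδ nm.h1).x 1) ((zRD zd hb δ nm.hδ nm.h1).κ s ⊔ (zRD zd hb δ nm.hδ nm.h1).B) ⊥ = 0 := by
  have e0 : dg (zRD zd hb δ nm.hδ nm.h1).x 1 = chgL hb.toInf.1 δ nm.hδ (dg H.x (δ * 1)) :=
    z_dg hb δ nm.hδ nm.h1 _ le_rfl
  have e1 : I (dg H.x 1) (H.κ (s0 + δ * s) ⊔ H.B) (⊥ ⊔ cl hb.toInf) = 0 := by
    have a1 := cc.T1 _ hs
    have a2 : H.κ (s0 + δ * s) ⊔ H.B = H.κ s0 ⊔ (H.κ (s0 + δ * s) ⊔ H.B) :=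
      (sup_eq_right.mpr ((cc.mono s0 nm.hs0 _ hs (nm.sle hn)).trans le_sup_left)).symm
    rw [a2] at a1
    have a3 := (I_decomp a1).2
    rw [cl_base, sup_comm ⊥ (H.κ s0)]
    exact a3
  have e2 : I (dg H.x (δ * 1)) (H.κ (s0 + δ * s) ⊔ H.B) (⊥ ⊔ cl hb.toInf) = 0 :=
    I_zero_mono e1 ((dg_mono _ (by rw [mul_one]; exact nm.h1)).trans le_sup_left) le_sup_left
  have e3 := I_chgL_inf δ nm.hδ hb.toInf (dg H.x (δ * 1)) (H.κ (s0 + δ * s) ⊔ H.B) ⊥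
  rw [e2, zero_div, chgL_bot] at e3
  rw [e0]
  refine I_zero_mono e3 le_sup_left ?_
  rw [z_κ zd hb δ nm.hδ nm.h1 (cc.bdd _ hs), chgL_sup]
  exact (sup_le_sup_left (B_le zd nm hb cc) _).trans le_sup_left

/-- richness -/
theorem z_rich : ∃ g : ℝ, 0 < g ∧ ∀ (T : Sp) (p : Pj T (S.chg hb.toInf.1 δ nm.hδ)) (E : ∀ k, (T.F k).Ω → Prop)
    (hE : 0 < ul (T.pr E)) (r : ℝ), 0 ≤ r → r ≤ 1 →
    g * r ≤ h (restL E hE (p.map (dg (zRD zd hb δ nm.hδ nm.h1).x r)))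
      (restL E hE (p.map (zRD zd hb δ nm.hδ nm.h1).B)) := by
  obtain ⟨g, hg, hr⟩ := cc.rich
  refine ⟨g, hg, fun T p E hE r h0 h1 => ?_⟩
  have e0 : dg (zRD zd hb δ nm.hδ nm.h1).x r = chgL hb.toInf.1 δ nm.hδ (dg H.x (δ * r)) :=
    z_dg hb δ nm.hδ nm.h1 _ h1
  rw [e0]
  refine le_trans ?_ (h_anti (restL_mono E hE (p.map_mono (B_le zd nm hb cc))))
  rw [h_juz p hE, le_div_iff₀ nm.hδ, cl_base]
  have hδr : δ * r ≤ 1 := by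
    have := nm.h1
    have := nm.hδ
    nlinarith
  have e1 := hr (unz p) (puz p) (evz p E) (evz_pos p hE) (δ * r) (mul_nonneg nm.hδ.le h0) hδr
  have e2 : I (dg H.x (δ * r)) (H.κ s0) H.B = 0 := by
    have a1 := cc.T1 s0 nm.hs0
    rw [sup_comm] at a1
    have a2 := (I_decomp a1).2
    rw [sup_bot_eq] at a2
    exact I_zero_mono a2 ((dg_mono _ hδr).trans le_sup_left) le_sup_left
  have e3 := I_rest_zero (evz p E) (evz_pos p hE) (((puz p).I_map _ _ _).trans e2)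
  rw [I_zero_iff_h, ← restL_sup, ← Pj.map_sup, sup_comm] at e3
  rw [e3]
  linarith

/-- centres -/
theorem z_ft {s : ℝ} (hn : 0 ≤ s) (hs : s0 + δ * s ∈ Sc) :
    (zRD zd hb δ nm.hδ nm.h1).t - (zFR zd hb δ nm.hδ nm.h1).t0 s ∈ Id (S.chg hb.toInf.1 δ nm.hδ) s ∧
    dg ((zFR zd hb δ nm.hδ nm.h1).t0 s) 1 ≤ dg (zRD zd hb δ nm.hδ nm.h1).t s := by
  have hs1 := nm.z1 hn hs
  have hsS := le1 cc hs (w1s nm cc hs)
  have hss := nm.sle hn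
  obtain ⟨e1, -⟩ := zd.ht0 _ hs hss
  constructor
  · show qz _ _ _ _ (mk (zd.gB 0)) - qz _ _ _ _ (zd.t0 (s0 + δ * s)) ∈ _
    rw [← map_sub, qz_mem _ _ _ nm.h1 hs1]
    have e2 : sc S s0 * (mk (zd.gB 0) - zd.t0 (s0 + δ * s)) = H.t - f.t0 (s0 + δ * s) := by
      rw [mul_sub, ← zd.hT, ← e1]
      ring
    have e3 := mem_of_sc_mul nm.n0 hsS (e2 ▸ (cc.ft _ hs).1)
    rwa [add_sub_cancel_left] at e3
  · have a1 : dg ((zFR zd hb δ nm.hδ nm.h1).t0 s) 1 = chgL hb.toInf.1 δ nm.hδ (dg (zd.t0 (s0 + δ * s)) (δ * 1)) :=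
      z_dg hb δ nm.hδ nm.h1 _ le_rfl
    have a2 : dg (zRD zd hb δ nm.hδ nm.h1).t s = chgL hb.toInf.1 δ nm.hδ (dg (mk (zd.gB 0)) (δ * s)) :=
      z_dg hb δ nm.hδ nm.h1 _ hs1
    have hδs : δ * s ≤ δ := by
      have := nm.hδ
      nlinarith
    rw [a1, a2, ch_le, mul_one, dg_of_sc nm.n0 nm.d1 e1, dgT zd nm hδs]
    refine dg_sub_le' _ _ nm.d1 ?_ (((dg_mono _ nm.d1).trans (t0K cc nm.hs0)).trans le_sup_right)
    exact ((dg_mono _ nm.d1).trans (cc.ft _ hs).2).trans (t_hat nm cc hsS)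

theorem z_fy {s : ℝ} (hn : 0 ≤ s) (hs : s0 + δ * s ∈ Sc) :
    (zRD zd hb δ nm.hδ nm.h1).y - (zFR zd hb δ nm.hδ nm.h1).y0 s ∈ Id (S.chg hb.toInf.1 δ nm.hδ) s ∧
    dg ((zFR zd hb δ nm.hδ nm.h1).y0 s) 1 ≤ dg (zRD zd hb δ nm.hδ nm.h1).y s := by
  have hs1 := nm.z1 hn hs
  have hsS := le1 cc hs (w1s nm cc hs)
  have hss := nm.sle hn
  obtain ⟨e1, -⟩ := zd.hy0 _ hs hss
  constructor
  · show qz _ _ _ _ (mk (zd.gB 1)) - qz _ _ _ _ (zd.y0 (s0 + δ * s)) ∈ _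
    rw [← map_sub, qz_mem _ _ _ nm.h1 hs1]
    have e2 : sc S s0 * (mk (zd.gB 1) - zd.y0 (s0 + δ * s)) = H.y - f.y0 (s0 + δ * s) := by
      rw [mul_sub, ← zd.hY, ← e1]
      ring
    have e3 := mem_of_sc_mul nm.n0 hsS (e2 ▸ (cc.fy _ hs).1)
    rwa [add_sub_cancel_left] at e3
  · have a1 : dg ((zFR zd hb δ nm.hδ nm.h1).y0 s) 1 = chgL hb.toInf.1 δ nm.hδ (dg (zd.y0 (s0 + δ * s)) (δ * 1)) :=
      z_dg hb δ nm.hδ nm.h1 _ le_rfl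
    have a2 : dg (zRD zd hb δ nm.hδ nm.h1).y s = chgL hb.toInf.1 δ nm.hδ (dg (mk (zd.gB 1)) (δ * s)) :=
      z_dg hb δ nm.hδ nm.h1 _ hs1
    have hδs : δ * s ≤ δ := by
      have := nm.hδ
      nlinarith
    rw [a1, a2, ch_le, mul_one, dg_of_sc nm.n0 nm.d1 e1, dgY zd nm hδs]
    refine dg_sub_le' _ _ nm.d1 ?_ (((dg_mono _ nm.d1).trans (y0K cc nm.hs0)).trans le_sup_right)
    exact ((dg_mono _ nm.d1).trans (cc.fy _ hs).2).trans (y_hat nm cc hsS)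

/-- frame of `R` -/
theorem z_frR {s : ℝ} (hn : 0 ≤ s) (hs : s0 + δ * s ∈ Sc) :
    (zRD zd hb δ nm.hδ nm.h1).R - ((zFR zd hb δ nm.hδ nm.h1).r0 s +
      (zFR zd hb δ nm.hδ nm.h1).rt s * (zRD zd hb δ nm.hδ nm.h1).t +
      (zFR zd hb δ nm.hδ nm.h1).ry s * (zRD zd hb δ nm.hδ nm.h1).y) ∈ Id (S.chg hb.toInf.1 δ nm.hδ) (w1 * s) := by
  have hss := nm.sle hn
  show qz _ _ _ _ (mk (zd.gB 2)) - (qz _ _ _ _ (zd.r0 (s0 + δ * s)) +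
    qz _ _ _ _ (zd.rt (s0 + δ * s)) * qz _ _ _ _ (mk (zd.gB 0)) +
    qz _ _ _ _ (zd.ry (s0 + δ * s)) * qz _ _ _ _ (mk (zd.gB 1))) ∈ _
  rw [← map_mul, ← map_mul, ← map_add, ← map_add, ← map_sub, qz_mem _ _ _ nm.h1 (nm.w1z hn hs)]
  have w1n : 0 ≤ w1 - 1 := by linarith [nm.hw1]
  have s1 : sc S (w1 * s0) = sc S s0 * sc S ((w1 - 1) * s0) := by
    rw [← sc_add nm.n0 (mul_nonneg w1n nm.n0)]
    congr 1
    ring
  have e2 : sc S (w1 * s0) * (mk (zd.gB 2) - (zd.r0 (s0 + δ * s) + zd.rt (s0 + δ * s) * mk (zd.gB 0) +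
      zd.ry (s0 + δ * s) * mk (zd.gB 1))) = Rh H f (s0 + δ * s) := by
    have e3 : sc S (w1 * s0) * (mk (zd.gB 2) - (zd.r0 (s0 + δ * s) + zd.rt (s0 + δ * s) * mk (zd.gB 0) +
      zd.ry (s0 + δ * s) * mk (zd.gB 1))) = sc S (w1 * s0) * mk (zd.gB 2) - sc S (w1 * s0) * zd.r0 (s0 + δ * s) -
        (sc S ((w1 - 1) * s0) * zd.rt (s0 + δ * s)) * (sc S s0 * mk (zd.gB 0)) -
        (sc S ((w1 - 1) * s0) * zd.ry (s0 + δ * s)) * (sc S s0 * mk (zd.gB 1)) := by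
      rw [s1]
      ring
    rw [e3, ← zd.hR, ← zd.hT, ← zd.hY, ← (zd.hr0 _ hs hss).1, ← (zd.hrt _ hs hss).1, ← (zd.hry _ hs hss).1]
    unfold Rh
    ring
  have e5 : Rh H f (s0 + δ * s) ∈ Id S (w1 * (s0 + δ * s)) := cc.frR _ hs
  rw [← e2] at e5
  have e3 := mem_of_sc_mul (mul_nonneg (by linarith [nm.hw1]) nm.n0) (w1s nm cc hs) e5
  have e4 : w1 * (s0 + δ * s) - w1 * s0 = δ * (w1 * s) := by ring
  rwa [e4] at e3

/-- frame of `z` -/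
theorem z_frZ {s : ℝ} (hn : 0 ≤ s) (hs : s0 + δ * s ∈ Sc) :
    (zRD zd hb δ nm.hδ nm.h1).z - ((zFR zd hb δ nm.hδ nm.h1).z0 s +
      (zFR zd hb δ nm.hδ nm.h1).k0 s * (zRD zd hb δ nm.hδ nm.h1).t +
      (zFR zd hb δ nm.hδ nm.h1).k1 s * (zRD zd hb δ nm.hδ nm.h1).y +
      (zFR zd hb δ nm.hδ nm.h1).c s * (zRD zd hb δ nm.hδ nm.h1).R) ∈ Id (S.chg hb.toInf.1 δ nm.hδ) (w * s) := by
  have hss := nm.sle hn
  show qz _ _ _ _ (mk (zd.gB 3)) - (qz _ _ _ _ (zd.z0 (s0 + δ * s)) +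
    qz _ _ _ _ (zd.k0 (s0 + δ * s)) * qz _ _ _ _ (mk (zd.gB 0)) +
    qz _ _ _ _ (zd.k1 (s0 + δ * s)) * qz _ _ _ _ (mk (zd.gB 1)) +
    qz _ _ _ _ (zd.c (s0 + δ * s)) * qz _ _ _ _ (mk (zd.gB 2))) ∈ _
  rw [← map_mul, ← map_mul, ← map_mul, ← map_add, ← map_add, ← map_add, ← map_sub, qz_mem _ _ _ nm.h1 (nm.wz hs)]
  have wn : 0 ≤ w - 1 := by linarith [nm.hw]
  have wn1 : 0 ≤ w - w1 := by linarith [nm.hww]
  have s1 : sc S (w * s0) = sc S s0 * sc S ((w - 1) * s0) := by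
    rw [← sc_add nm.n0 (mul_nonneg wn nm.n0)]
    congr 1
    ring
  have s2 : sc S (w * s0) = sc S ((w - w1) * s0) * sc S (w1 * s0) := by
    rw [← sc_add (mul_nonneg wn1 nm.n0) (mul_nonneg (by linarith [nm.hw1]) nm.n0)]
    congr 1
    ring
  have e2 : sc S (w * s0) * (mk (zd.gB 3) - (zd.z0 (s0 + δ * s) + zd.k0 (s0 + δ * s) * mk (zd.gB 0) +
      zd.k1 (s0 + δ * s) * mk (zd.gB 1) + zd.c (s0 + δ * s) * mk (zd.gB 2))) = Zh H f (s0 + δ * s) := by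
    have e3 : sc S (w * s0) * (mk (zd.gB 3) - (zd.z0 (s0 + δ * s) + zd.k0 (s0 + δ * s) * mk (zd.gB 0) +
      zd.k1 (s0 + δ * s) * mk (zd.gB 1) + zd.c (s0 + δ * s) * mk (zd.gB 2))) =
        sc S (w * s0) * mk (zd.gB 3) - sc S (w * s0) * zd.z0 (s0 + δ * s) -
        (sc S s0 * sc S ((w - 1) * s0)) * (zd.k0 (s0 + δ * s) * mk (zd.gB 0)) -
        (sc S s0 * sc S ((w - 1) * s0)) * (zd.k1 (s0 + δ * s) * mk (zd.gB 1)) -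
        (sc S ((w - w1) * s0) * sc S (w1 * s0)) * (zd.c (s0 + δ * s) * mk (zd.gB 2)) := by
      rw [← s1, ← s2]
      ring
    have e4 : sc S (w * s0) * mk (zd.gB 3) - sc S (w * s0) * zd.z0 (s0 + δ * s) -
        (sc S s0 * sc S ((w - 1) * s0)) * (zd.k0 (s0 + δ * s) * mk (zd.gB 0)) -
        (sc S s0 * sc S ((w - 1) * s0)) * (zd.k1 (s0 + δ * s) * mk (zd.gB 1)) -
        (sc S ((w - w1) * s0) * sc S (w1 * s0)) * (zd.c (s0 + δ * s) * mk (zd.gB 2)) =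
        sc S (w * s0) * mk (zd.gB 3) - sc S (w * s0) * zd.z0 (s0 + δ * s) -
        (sc S ((w - 1) * s0) * zd.k0 (s0 + δ * s)) * (sc S s0 * mk (zd.gB 0)) -
        (sc S ((w - 1) * s0) * zd.k1 (s0 + δ * s)) * (sc S s0 * mk (zd.gB 1)) -
        (sc S ((w - w1) * s0) * zd.c (s0 + δ * s)) * (sc S (w1 * s0) * mk (zd.gB 2)) := by ring
    rw [e3, e4, ← zd.hZ, ← zd.hR, ← zd.hT, ← zd.hY, ← (zd.hz0 _ hs hss).1, ← (zd.hk0 _ hs hss).1,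
      ← (zd.hk1 _ hs hss).1, ← (zd.hc _ hs hss).1, Zh_inc H f s0 (s0 + δ * s)]
    ring
  have e5 : Zh H f (s0 + δ * s) ∈ Id S (w * (s0 + δ * s)) := cc.frZ _ hs
  rw [← e2] at e5
  have e3 := mem_of_sc_mul (mul_nonneg nm.w0.le nm.n0) (nm.ws hs) e5
  have e4 : w * (s0 + δ * s) - w * s0 = δ * (w * s) := by ring
  rwa [e4] at e3

end

end Pool.Agent.Helper90.ZM2
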