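import Pool.Agent.Helper90.ZM2.Crn

/-! The zoomed corner: fullness, unsaturation, agreement; all common fields. -/

set_option autoImplicit false

namespace Pool.Agent.Helper90.ZM2

open Finset Filter Topology Pool.Agent.Helper69.RK Pool.Agent.Helper31.EC Pool.Agent.Helper82.TP
open Pool.Agent.Helper79.NF Pool.Agent.Helper31.NSB Pool.Agent.Helper90.BLD Pool.Agent.Helper90.NBR
open Pool.Agent.Helper60.CS Pool.Agent.Helper8.PLK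
open Pool.Agent.Helper57.TA (sc sc_mul_mem sc_mul_mem_iff sc_add sc_zero mem_of_sc_mul sc_mem)
open Pool.Agent.Helper32.BF2 (exists_div lit_sc dg_sc_mul)

noncomputable section

open Sp QS

variable {S : Sp} {H : RD S} {f : FR S} {w1 w ρ : ℝ} {Sc : Set ℝ} {s0 δ σ : ℝ}
  (zd : ZD H f w1 w Sc s0) (nm : Nm Sc w1 w s0 δ σ) (hb : Bdd (H.K s0))

include nm in
/-- representatives of functions of the line and of the label -/
theorem litA_all : ∀ᶠ k in UF, ∀ ω ω', (S.F k).μ ω ≠ 0 → (S.F k).μ ω' ≠ 0 → (S.F k).Z ω ω' →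
    VAs H s0 k ω = VAs H s0 k ω' → (zRD zd hb δ nm.hδ nm.h1).VA k ω = (zRD zd hb δ nm.hδ nm.h1).VA k ω' := by
  have h1 : ∀ᶠ k in UF, ∀ i : Fin 6, ∀ ω ω', (S.F k).μ ω ≠ 0 → (S.F k).μ ω' ≠ 0 → (S.F k).Z ω ω' →
    VAs H s0 k ω = VAs H s0 k ω' → TR.ev (zd.gA i) k ω = TR.ev (zd.gA i) k ω' := eventually_all.mpr zd.litA
  filter_upwards [h1] with k hk ω ω' a b c d
  exact cel_congr (S := S.chg hb.toInf.1 δ nm.hδ) _ k ω ω' fun i => hk i ω ω' a b c d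

include nm in
theorem litB_all : ∀ᶠ k in UF, ∀ ω ω', (S.F k).μ ω ≠ 0 → (S.F k).μ ω' ≠ 0 → (S.F k).Z ω ω' →
    VBs H s0 k ω = VBs H s0 k ω' → (zRD zd hb δ nm.hδ nm.h1).VB k ω = (zRD zd hb δ nm.hδ nm.h1).VB k ω' := by
  have h1 : ∀ᶠ k in UF, ∀ i : Fin 4, ∀ ω ω', (S.F k).μ ω ≠ 0 → (S.F k).μ ω' ≠ 0 → (S.F k).Z ω ω' →
    VBs H s0 k ω = VBs H s0 k ω' → TR.ev (zd.gB i) k ω = TR.ev (zd.gB i) k ω' := eventually_all.mpr zd.litB
  filter_upwards [h1] with k hk ω ω' a b c d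
  exact cel_congr (S := S.chg hb.toInf.1 δ nm.hδ) _ k ω ω' fun i => hk i ω ω' a b c d

section lit

/-- frames are functions of the labels -/
theorem z_lit {s : ℝ} (g : QS S) (hg : Lit (H.K (s0 + δ * s)) g) :
    Lit ((zRD zd hb δ nm.hδ nm.h1).K s) (qz hb.toInf.1 δ nm.hδ nm.h1 g) :=
  lit_qz (X := H.K (s0 + δ * s)) hb.toInf δ nm.hδ nm.h1 hg

include nm

theorem z_lt {s : ℝ} (hn : 0 ≤ s) (hs : s0 + δ * s ∈ Sc) :
    Lit ((zRD zd hb δ nm.hδ nm.h1).K s) ((zFR zd hb δ nm.hδ nm.h1).t0 s) ∧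
    Lit ((zRD zd hb δ nm.hδ nm.h1).K s) ((zFR zd hb δ nm.hδ nm.h1).y0 s) :=
  ⟨z_lit zd nm hb (zd.t0 (s0 + δ * s)) (zd.ht0 _ hs (nm.sle hn)).2,
    z_lit zd nm hb (zd.y0 (s0 + δ * s)) (zd.hy0 _ hs (nm.sle hn)).2⟩

theorem z_lr {s : ℝ} (hn : 0 ≤ s) (hs : s0 + δ * s ∈ Sc) :
    Lit ((zRD zd hb δ nm.hδ nm.h1).K s) ((zFR zd hb δ nm.hδ nm.h1).r0 s) ∧
    Lit ((zRD zd hb δ nm.hδ nm.h1).K s) ((zFR zd hb δ nm.hδ nm.h1).rt s) ∧
    Lit ((zRD zd hb δ nm.hδ nm.h1).K s) ((zFR zd hb δ nm.hδ nm.h1).ry s) :=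
  ⟨z_lit zd nm hb (zd.r0 (s0 + δ * s)) (zd.hr0 _ hs (nm.sle hn)).2,
    z_lit zd nm hb (zd.rt (s0 + δ * s)) (zd.hrt _ hs (nm.sle hn)).2,
    z_lit zd nm hb (zd.ry (s0 + δ * s)) (zd.hry _ hs (nm.sle hn)).2⟩

theorem z_lz {s : ℝ} (hn : 0 ≤ s) (hs : s0 + δ * s ∈ Sc) :
    Lit ((zRD zd hb δ nm.hδ nm.h1).K s) ((zFR zd hb δ nm.hδ nm.h1).z0 s) ∧
    Lit ((zRD zd hb δ nm.hδ nm.h1).K s) ((zFR zd hb δ nm.hδ nm.h1).k0 s) ∧
    Lit ((zRD zd hb δ nm.hδ nm.h1).K s) ((zFR zd hb δ nm.hδ nm.h1).k1 s) ∧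
    Lit ((zRD zd hb δ nm.hδ nm.h1).K s) ((zFR zd hb δ nm.hδ nm.h1).c s) :=
  ⟨z_lit zd nm hb (zd.z0 (s0 + δ * s)) (zd.hz0 _ hs (nm.sle hn)).2,
    z_lit zd nm hb (zd.k0 (s0 + δ * s)) (zd.hk0 _ hs (nm.sle hn)).2,
    z_lit zd nm hb (zd.k1 (s0 + δ * s)) (zd.hk1 _ hs (nm.sle hn)).2,
    z_lit zd nm hb (zd.c (s0 + δ * s)) (zd.hc _ hs (nm.sle hn)).2⟩

end lit

section c0
variable (cc : C0 H f w1 w Sc)
include nm cc

/-- literal functions of the zoomed line and label come from literal functions of the line and of the label -/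
theorem upA {s : ℝ} (hn : 0 ≤ s) (hs : s0 + δ * s ∈ Sc) {g : QS (S.chg hb.toInf.1 δ nm.hδ)}
    (hg : Lit (fun k ω => ((zRD zd hb δ nm.hδ nm.h1).VA k ω, (zRD zd hb δ nm.hδ nm.h1).K s k ω)) g) :
    ∃ g' : QS S, qz hb.toInf.1 δ nm.hδ nm.h1 g' = g ∧ Lit (VAs H (s0 + δ * s)) g' := by
  refine lit_up hb.toInf δ nm.hδ nm.h1 hg ?_
  filter_upwards [litA_all zd nm hb, cc.nest s0 nm.hs0 _ hs (nm.sle hn)] with k h1 h2 ω ω' a b c d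
  have e1 : H.VA k ω = H.VA k ω' := (Prod.mk.inj d).1
  have e2 : H.K (s0 + δ * s) k ω = H.K (s0 + δ * s) k ω' := (Prod.mk.inj d).2
  have e3 := h2 ω ω' a b c e2
  have e4 : VAs H s0 k ω = VAs H s0 k ω' := Prod.ext e1 e3
  exact ⟨e3, Prod.ext (h1 ω ω' a b c e4) e2⟩

theorem upB {s : ℝ} (hn : 0 ≤ s) (hs : s0 + δ * s ∈ Sc) {g : QS (S.chg hb.toInf.1 δ nm.hδ)}
    (hg : Lit (fun k ω => ((zRD zd hb δ nm.hδ nm.h1).VB k ω, (zRD zd hb δ nm.hδ nm.h1).K s k ω)) g) :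
    ∃ g' : QS S, qz hb.toInf.1 δ nm.hδ nm.h1 g' = g ∧ Lit (VBs H (s0 + δ * s)) g' := by
  refine lit_up hb.toInf δ nm.hδ nm.h1 hg ?_
  filter_upwards [litB_all zd nm hb, cc.nest s0 nm.hs0 _ hs (nm.sle hn)] with k h1 h2 ω ω' a b c d
  have e1 : H.VB k ω = H.VB k ω' := (Prod.mk.inj d).1
  have e2 : H.K (s0 + δ * s) k ω = H.K (s0 + δ * s) k ω' := (Prod.mk.inj d).2
  have e3 := h2 ω ω' a b c e2
  have e4 : VBs H s0 k ω = VBs H s0 k ω' := Prod.ext e1 e3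
  exact ⟨e3, Prod.ext (h1 ω ω' a b c e4) e2⟩

/-- agreement -/
theorem z_agr {s s' : ℝ} (hn : 0 ≤ s) (hs : s0 + δ * s ∈ Sc) (hn' : 0 ≤ s') (hs' : s0 + δ * s' ∈ Sc) (hss : s ≤ s') :
    Agr (zRD zd hb δ nm.hδ nm.h1) s s' := by
  intro E hE gA gB d hd0 hd1 lA lB hg
  obtain ⟨GA, rfl, LA⟩ := upA zd nm hb cc hn hs lA
  obtain ⟨GB, rfl, LB⟩ := upB zd nm hb cc hn' hs' lB
  rw [← map_sub, qz_rest_mem hb.toInf δ nm.hδ nm.h1 E hE hd1] at hg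
  have hδ1 := nm.h1
  have hδ0 := nm.hδ
  have e1 := cc.agr _ hs _ hs' (by nlinarith) E hE GA GB (δ * d) (by positivity) (by nlinarith) LA LB hg
  rw [z_κ zd hb δ nm.hδ nm.h1 (cc.bdd _ hs)]
  rw [qz_dg hb.toInf.1 δ nm.hδ nm.h1 GB hd1]
  rw [restL_chg hb.toInf δ nm.hδ E hE, restL_chg hb.toInf δ nm.hδ E hE]
  exact chgL_mono _ _ _ e1

/-- fullness -/
theorem z_full {s : ℝ} (hn : 0 ≤ s) (hs : s0 + δ * s ∈ Sc)
    (T : Sp) (p : Pj T (S.chg hb.toInf.1 δ nm.hδ)) (E : ∀ k, (T.F k).Ω → Prop) (hE : 0 < ul (T.pr E)) :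
    3 - (2 + w1) * s ≤ h (restL E hE (p.map (zRD zd hb δ nm.hδ nm.h1).M))
      (restL E hE (p.map ((zRD zd hb δ nm.hδ nm.h1).κ s))) := by
  have hss := nm.sle hn
  have hκ := cc.mono s0 nm.hs0 _ hs hss
  have eM : (zRD zd hb δ nm.hδ nm.h1).M = chgL hb.toInf.1 δ nm.hδ (dg (H.t - f.t0 s0) (s0 + δ) ⊔
      dg (H.y - f.y0 s0) (s0 + δ) ⊔ dg (Rh H f s0) (w1 * s0 + δ)) := by
    have a1 : dg (zRD zd hb δ nm.hδ nm.h1).t 1 = chgL hb.toInf.1 δ nm.hδ (dg (mk (zd.gB 0)) (δ * 1)) :=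
      z_dg hb δ nm.hδ nm.h1 _ le_rfl
    have a2 : dg (zRD zd hb δ nm.hδ nm.h1).y 1 = chgL hb.toInf.1 δ nm.hδ (dg (mk (zd.gB 1)) (δ * 1)) :=
      z_dg hb δ nm.hδ nm.h1 _ le_rfl
    have a3 : dg (zRD zd hb δ nm.hδ nm.h1).R 1 = chgL hb.toInf.1 δ nm.hδ (dg (mk (zd.gB 2)) (δ * 1)) :=
      z_dg hb δ nm.hδ nm.h1 _ le_rfl
    unfold HD0.M
    rw [a1, a2, a3, mul_one, dgT zd nm le_rfl, dgY zd nm le_rfl, dgR zd nm le_rfl, chgL_sup, chgL_sup]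
  rw [eM, z_κ zd hb δ nm.hδ nm.h1 (cc.bdd _ hs), h_juz p hE, le_div_iff₀ nm.hδ, cl_base,
    sup_eq_left.mpr hκ]
  have e1 := cc.full _ hs (w1s nm cc hs) (unz p) (puz p) (evz p E) (evz_pos p hE)
  have kk : ∀ {A B : S.L}, A ≤ B → restL (evz p E) (evz_pos p hE) ((puz p).map A) ≤
    restL (evz p E) (evz_pos p hE) ((puz p).map B) := fun hAB => restL_mono _ _ ((puz p).map_mono hAB)
  -- all of `M` in the box coordinates
  have e2 : H.M ≤ (dg (H.t - f.t0 s0) 1 ⊔ dg (H.y - f.y0 s0) 1 ⊔ dg (Rh H f s0) 1) ⊔ H.κ (s0 + δ * s) := by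
    have b1 : dg H.t 1 ≤ (dg (H.t - f.t0 s0) 1 ⊔ dg (H.y - f.y0 s0) 1 ⊔ dg (Rh H f s0) 1) ⊔ H.κ (s0 + δ * s) :=
      (t_hat nm cc le_rfl).trans (sup_le_sup (le_sup_left.trans le_sup_left) hκ)
    have b2 : dg H.y 1 ≤ (dg (H.t - f.t0 s0) 1 ⊔ dg (H.y - f.y0 s0) 1 ⊔ dg (Rh H f s0) 1) ⊔ H.κ (s0 + δ * s) :=
      (y_hat nm cc le_rfl).trans (sup_le_sup (le_sup_right.trans le_sup_left) hκ)
    refine sup_le (sup_le b1 b2) ?_
    have e4 : H.R = Rh H f s0 + (f.r0 s0 + f.rt s0 * H.t + f.ry s0 * H.y) := by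
      unfold Rh
      ring
    conv_lhs => rw [e4]
    exact add_le1 (le_sup_right.trans le_sup_left) (add_le1 (add_le1 ((r0K cc nm.hs0).trans (hκ.trans le_sup_right))
      (mul_le1 ((rtK cc nm.hs0).trans (hκ.trans le_sup_right)) b1))
      (mul_le1 ((ryK cc nm.hs0).trans (hκ.trans le_sup_right)) b2))
  have e3 := h_le_of (A := restL (evz p E) (evz_pos p hE) ((puz p).map H.M))
    (A' := restL (evz p E) (evz_pos p hE) ((puz p).map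
      (dg (H.t - f.t0 s0) 1 ⊔ dg (H.y - f.y0 s0) 1 ⊔ dg (Rh H f s0) 1)))
    (B := restL (evz p E) (evz_pos p hE) ((puz p).map (H.κ (s0 + δ * s)))) (by
      rw [← restL_sup, ← Pj.map_sup]
      exact kk e2) le_rfl
  rw [Pj.map_sup, Pj.map_sup, restL_sup, restL_sup] at e3
  have e4 := h_three (A := restL (evz p E) (evz_pos p hE) ((puz p).map (dg (H.t - f.t0 s0) 1)))
    (B := restL (evz p E) (evz_pos p hE) ((puz p).map (dg (H.y - f.y0 s0) 1)))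
    (C := restL (evz p E) (evz_pos p hE) ((puz p).map (dg (Rh H f s0) 1)))
    (A' := restL (evz p E) (evz_pos p hE) ((puz p).map (dg (H.t - f.t0 s0) (s0 + δ))))
    (B' := restL (evz p E) (evz_pos p hE) ((puz p).map (dg (H.y - f.y0 s0) (s0 + δ))))
    (C' := restL (evz p E) (evz_pos p hE) ((puz p).map (dg (Rh H f s0) (w1 * s0 + δ))))
    (K := restL (evz p E) (evz_pos p hE) ((puz p).map (H.κ (s0 + δ * s))))
  have g1 := Helper62.UR.h_dg_rest (puz p) (evz p E) (evz_pos p hE) (H.t - f.t0 s0) nm.d1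
  have g2 := Helper62.UR.h_dg_rest (puz p) (evz p E) (evz_pos p hE) (H.y - f.y0 s0) nm.d1
  have g3 := Helper62.UR.h_dg_rest (puz p) (evz p E) (evz_pos p hE) (Rh H f s0) nm.dR
  rw [← restL_sup, ← restL_sup, ← Pj.map_sup, ← Pj.map_sup, ← restL_sup, ← restL_sup, ← Pj.map_sup,
    ← Pj.map_sup] at e4
  rw [← restL_sup, ← restL_sup, ← Pj.map_sup, ← Pj.map_sup] at e3
  nlinarith

end c0

section uns
variable (cc : CC H f w1 w ρ Sc) (hd : Dns Sc σ)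
include nm cc hd

/-- unsaturation -/
theorem z_uns (T : Sp) (p : Pj T (S.chg hb.toInf.1 δ nm.hδ)) (E : ∀ k, (T.F k).Ω → Prop) (hE : 0 < ul (T.pr E))
    (a b : ℝ) (ha : 0 ≤ a) (hab : a ≤ b) (hb1 : b ≤ 1) :
    h (restL E hE (p.map (dg (zRD zd hb δ nm.hδ nm.h1).z b)))
      (restL E hE (p.map (dg (zRD zd hb δ nm.hδ nm.h1).z a ⊔ (zRD zd hb δ nm.hδ nm.h1).iso b))) ≤ (1 - ρ) * (b - a) := by
  have hδ0 := nm.hδ
  have hδb : δ * b ≤ δ := by nlinarith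
  have hδa : δ * a ≤ δ := by nlinarith
  have a1 : dg (zRD zd hb δ nm.hδ nm.h1).z b = chgL hb.toInf.1 δ nm.hδ (dg (mk (zd.gB 3)) (δ * b)) :=
    z_dg hb δ nm.hδ nm.h1 _ hb1
  have a2 : dg (zRD zd hb δ nm.hδ nm.h1).z a = chgL hb.toInf.1 δ nm.hδ (dg (mk (zd.gB 3)) (δ * a)) :=
    z_dg hb δ nm.hδ nm.h1 _ (hab.trans hb1)
  have a3 : (zRD zd hb δ nm.hδ nm.h1).iso b = chgL hb.toInf.1 δ nm.hδ (dg (mk (zd.gB 0)) (δ * b) ⊔
      dg (mk (zd.gB 1)) (δ * b) ⊔ dg (mk (zd.gB 2)) (δ * b)) := by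
    have b1 : dg (zRD zd hb δ nm.hδ nm.h1).t b = chgL hb.toInf.1 δ nm.hδ (dg (mk (zd.gB 0)) (δ * b)) :=
      z_dg hb δ nm.hδ nm.h1 _ hb1
    have b2 : dg (zRD zd hb δ nm.hδ nm.h1).y b = chgL hb.toInf.1 δ nm.hδ (dg (mk (zd.gB 1)) (δ * b)) :=
      z_dg hb δ nm.hδ nm.h1 _ hb1
    have b3 : dg (zRD zd hb δ nm.hδ nm.h1).R b = chgL hb.toInf.1 δ nm.hδ (dg (mk (zd.gB 2)) (δ * b)) :=
      z_dg hb δ nm.hδ nm.h1 _ hb1
    unfold HD0.iso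
    rw [b1, b2, b3, chgL_sup, chgL_sup]
  have hle : w * s0 + δ * b ≤ 1 := by linarith [nm.dZ]
  have key := uns_box cc nm.le hd nm.hwσ nm.hww nm.hs0 (unz p) (puz p) (evz p E) (evz_pos p hE)
    (a := δ * a) (b := δ * b) (mul_nonneg hδ0.le ha) (by nlinarith) hle
  rw [a1, a2, a3, ← chgL_sup, h_juz p hE, div_le_iff₀ hδ0, cl_base]
  refine le_trans ?_ (key.trans (le_of_eq (by ring)))
  rw [dgZ zd nm hδb, dgZ zd nm hδa, dgT zd nm hδb, dgY zd nm hδb, dgR zd nm hδb]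
  apply h_anti
  apply restL_mono
  apply Pj.map_mono
  have hsb : s0 + δ * b ≤ 1 := by linarith [nm.d1]
  refine sup_le (le_sup_left.trans le_sup_left) (sup_le le_sup_right (sup_le (sup_le ?_ ?_) ?_))
  · refine (t_hat nm cc.toC0 hsb).trans (sup_le ?_ le_sup_right)
    exact ((le_sup_left.trans le_sup_left).trans le_sup_right).trans le_sup_left
  · refine (y_hat nm cc.toC0 hsb).trans (sup_le ?_ le_sup_right)
    exact ((le_sup_right.trans le_sup_left).trans le_sup_right).trans le_sup_left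
  · exact (le_sup_right.trans le_sup_right).trans le_sup_left

/-- THE ZOOMED CORNER IS A CORNER -/
theorem z_cc {σ' : ℝ} (hσ' : 0 ≤ σ') : CC (zRD zd hb δ nm.hδ nm.h1) (zFR zd hb δ nm.hδ nm.h1) w1 w ρ (zSc Sc s0 δ σ') where
  nn := fun s hs => hs.1
  zero := ⟨le_rfl, hσ', by rw [mul_zero, add_zero]; exact nm.hs0⟩
  κ0 := by
    have h0 : s0 + δ * 0 ∈ Sc := by rw [mul_zero, add_zero]; exact nm.hs0
    rw [z_κ zd hb δ nm.hδ nm.h1 (cc.bdd _ h0), mul_zero, add_zero]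
    exact ch_base hb δ nm.hδ
  bdd := fun s hs => chg_VB _ _ _ (cc.bdd _ hs.2.2)
  mono := fun s hs s' hs' hss => by
    rw [z_κ zd hb δ nm.hδ nm.h1 (cc.bdd _ hs.2.2), z_κ zd hb δ nm.hδ nm.h1 (cc.bdd _ hs'.2.2)]
    exact chgL_mono _ _ _ (cc.mono _ hs.2.2 _ hs'.2.2 (by
      have := mul_le_mul_of_nonneg_left hss nm.hδ.le
      linarith))
  nest := fun s hs s' hs' hss => by
    filter_upwards [cc.nest _ hs.2.2 _ hs'.2.2 (by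
      have := mul_le_mul_of_nonneg_left hss nm.hδ.le
      linarith)] with k hk ω ω' a b c d
    exact hk ω ω' a b c.2 d
  bA := (cel_bdd (S := S.chg hb.toInf.1 δ nm.hδ) _).1
  iA := z_iA zd nm hb
  bB := (cel_bdd (S := S.chg hb.toInf.1 δ nm.hδ) _).1
  iB := z_iB zd nm hb
  lA := z_lA zd nm hb
  lB := z_lB zd nm hb
  time := z_time zd nm hb cc.toC0
  leakA := fun s hs => z_leakA zd nm hb cc.toC0 hs.1 hs.2.2
  T1 := fun s hs => z_T1 zd nm hb cc.toC0 hs.1 hs.2.2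
  rich := z_rich zd nm hb cc.toC0
  lt := fun s hs => z_lt zd nm hb hs.1 hs.2.2
  lr := fun s hs => z_lr zd nm hb hs.1 hs.2.2
  lz := fun s hs => z_lz zd nm hb hs.1 hs.2.2
  ft := fun s hs => z_ft zd nm hb cc.toC0 hs.1 hs.2.2
  fy := fun s hs => z_fy zd nm hb cc.toC0 hs.1 hs.2.2
  frR := fun s hs => z_frR zd nm hb cc.toC0 hs.1 hs.2.2
  frZ := fun s hs => z_frZ zd nm hb cc.toC0 hs.1 hs.2.2
  full := fun s hs _ T p E hE => z_full zd nm hb cc.toC0 hs.1 hs.2.2 T p E hE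
  agr := fun s hs s' hs' hss => z_agr zd nm hb cc.toC0 hs.1 hs.2.2 hs'.1 hs'.2.2 hss
  hw1 := nm.hw1
  hw := nm.hw
  uns := fun T p E hE a b ha hab hb1 => z_uns zd nm hb cc hd T p E hE a b ha hab hb1
  hρ := cc.hρ

end uns

end

end Pool.Agent.Helper90.ZM2
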