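import Pool.Agent.Helper90.ZM2.Uns

/-! The data of the zoom into the box of a window: rescaled functions and frames, with literal representatives. -/

set_option autoImplicit false

namespace Pool.Agent.Helper90.ZM2

open Finset Filter Topology Pool.Agent.Helper69.RK Pool.Agent.Helper31.EC Pool.Agent.Helper82.TP
open Pool.Agent.Helper79.NF Pool.Agent.Helper31.NSB Pool.Agent.Helper90.BLD Pool.Agent.Helper90.NBR
open Pool.Agent.Helper57.TA (sc sc_mul_mem sc_mul_mem_iff sc_add sc_zero mem_of_sc_mul sc_mem)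
open Pool.Agent.Helper32.BF2 (exists_div lit_sc)

noncomputable section

open Sp QS

variable {S : Sp}

/-- rescaled functions in the box of the window `s0`; `gA = (x, a, F, cR, v, az)`, `gB = (t, y, R, z)` -/
structure ZD (H : RD S) (f : FR S) (w1 w : ℝ) (Sc : Set ℝ) (s0 : ℝ) where
  gA : Fin 6 → TR S
  gB : Fin 4 → TR S
  litA : ∀ i, ∀ᶠ k in UF, ∀ ω ω', (S.F k).μ ω ≠ 0 → (S.F k).μ ω' ≠ 0 → (S.F k).Z ω ω' →
    VAs H s0 k ω = VAs H s0 k ω' → TR.ev (gA i) k ω = TR.ev (gA i) k ω'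
  litB : ∀ i, ∀ᶠ k in UF, ∀ ω ω', (S.F k).μ ω ≠ 0 → (S.F k).μ ω' ≠ 0 → (S.F k).Z ω ω' →
    VBs H s0 k ω = VBs H s0 k ω' → TR.ev (gB i) k ω = TR.ev (gB i) k ω'
  hx : mk (gA 0) = H.x
  hT : H.t - f.t0 s0 = sc S s0 * mk (gB 0)
  hY : H.y - f.y0 s0 = sc S s0 * mk (gB 1)
  hR : Rh H f s0 = sc S (w1 * s0) * mk (gB 2)
  hZ : Zh H f s0 = sc S (w * s0) * mk (gB 3)
  hF : Fh H f s0 = sc S ((w1 - 1) * s0) * mk (gA 2)
  hv : vh H f s0 = sc S ((w - 1) * s0) * mk (gA 4)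
  ha : mk (gB 1) - mk (gB 0) * H.x - mk (gA 1) ∈ Id S (1 - s0)
  hcR : mk (gB 2) - mk (gB 0) * mk (gA 2) - mk (gA 3) ∈ Id S (1 - w1 * s0)
  haz : mk (gB 3) - mk (gB 0) * mk (gA 4) - mk (gA 5) ∈ Id S (1 - w * s0)
  t0 : ℝ → QS S
  y0 : ℝ → QS S
  r0 : ℝ → QS S
  rt : ℝ → QS S
  ry : ℝ → QS S
  z0 : ℝ → QS S
  k0 : ℝ → QS S
  k1 : ℝ → QS S
  c : ℝ → QS S
  ht0 : ∀ s ∈ Sc, s0 ≤ s → f.t0 s - f.t0 s0 = sc S s0 * t0 s ∧ Lit (H.K s) (t0 s)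
  hy0 : ∀ s ∈ Sc, s0 ≤ s → f.y0 s - f.y0 s0 = sc S s0 * y0 s ∧ Lit (H.K s) (y0 s)
  hr0 : ∀ s ∈ Sc, s0 ≤ s → (f.r0 s - f.r0 s0) + (f.rt s - f.rt s0) * f.t0 s0 + (f.ry s - f.ry s0) * f.y0 s0 =
    sc S (w1 * s0) * r0 s ∧ Lit (H.K s) (r0 s)
  hrt : ∀ s ∈ Sc, s0 ≤ s → f.rt s - f.rt s0 = sc S ((w1 - 1) * s0) * rt s ∧ Lit (H.K s) (rt s)
  hry : ∀ s ∈ Sc, s0 ≤ s → f.ry s - f.ry s0 = sc S ((w1 - 1) * s0) * ry s ∧ Lit (H.K s) (ry s)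
  hz0 : ∀ s ∈ Sc, s0 ≤ s → (f.z0 s - f.z0 s0) + (f.c s - f.c s0) * f.r0 s0 + A0 f s0 s * f.t0 s0 +
    A1 f s0 s * f.y0 s0 = sc S (w * s0) * z0 s ∧ Lit (H.K s) (z0 s)
  hk0 : ∀ s ∈ Sc, s0 ≤ s → A0 f s0 s = sc S ((w - 1) * s0) * k0 s ∧ Lit (H.K s) (k0 s)
  hk1 : ∀ s ∈ Sc, s0 ≤ s → A1 f s0 s = sc S ((w - 1) * s0) * k1 s ∧ Lit (H.K s) (k1 s)
  hc : ∀ s ∈ Sc, s0 ≤ s → f.c s - f.c s0 = sc S ((w - w1) * s0) * c s ∧ Lit (H.K s) (c s)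

/-- small literal functions as scaled tame functions -/
theorem div_rep {β : ℕ → Type} {V : ∀ k, (S.F k).Ω → β k} {f : QS S} {r : ℝ} (h0 : 0 ≤ r) (hr : r ≤ 1)
    (hf : f ∈ Id S r) (hV : Lit V f) : ∃ g : TR S, f = sc S r * mk g ∧ ∀ᶠ k in UF, ∀ ω ω', (S.F k).μ ω ≠ 0 →
      (S.F k).μ ω' ≠ 0 → (S.F k).Z ω ω' → V k ω = V k ω' → TR.ev g k ω = TR.ev g k ω' := by
  obtain ⟨g, e, hg⟩ := exists_div h0 hr hf hV
  obtain ⟨g, rfl, hg⟩ := hg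
  exact ⟨g, e, hg⟩

theorem div_fun {β : ℝ → ℕ → Type} {K : ∀ s k, (S.F k).Ω → β s k} {P : ℝ → Prop} {f : ℝ → QS S} {r : ℝ} (h0 : 0 ≤ r)
    (hr : r ≤ 1) (hf : ∀ s, P s → f s ∈ Id S r) (hV : ∀ s, P s → Lit (K s) (f s)) :
    ∃ g : ℝ → QS S, ∀ s, P s → f s = sc S r * g s ∧ Lit (K s) (g s) := by
  have h1 : ∀ s, ∃ g : QS S, P s → f s = sc S r * g ∧ Lit (K s) g := by
    intro s
    by_cases hs : P s
    · obtain ⟨g, e, hg⟩ := exists_div h0 hr (hf s hs) (hV s hs)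
      exact ⟨g, fun _ => ⟨e, hg⟩⟩
    · exact ⟨0, fun h => absurd h hs⟩
  choose g hg using h1
  exact ⟨g, hg⟩

variable {H : RD S} {f : FR S} {w1 w : ℝ} {Sc : Set ℝ}

theorem lit_A {s : ℝ} {g : QS S} (hg : Lit H.VA g) : Lit (VAs H s) g :=
  hg.of_fun (Eventually.of_forall fun _ _ _ _ _ _ e => (Prod.mk.inj e).1)
theorem lit_AK {s : ℝ} {g : QS S} (hg : Lit (H.K s) g) : Lit (VAs H s) g :=
  hg.of_fun (Eventually.of_forall fun _ _ _ _ _ _ e => (Prod.mk.inj e).2)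
theorem lit_B {s : ℝ} {g : QS S} (hg : Lit H.VB g) : Lit (VBs H s) g :=
  hg.of_fun (Eventually.of_forall fun _ _ _ _ _ _ e => (Prod.mk.inj e).1)
theorem lit_BK {s : ℝ} {g : QS S} (hg : Lit (H.K s) g) : Lit (VBs H s) g :=
  hg.of_fun (Eventually.of_forall fun _ _ _ _ _ _ e => (Prod.mk.inj e).2)

variable (cc : C0 H f w1 w Sc)

include cc

theorem lit_nest {s s' : ℝ} (hs : s ∈ Sc) (hs' : s' ∈ Sc) (hss : s ≤ s') {g : QS S} (hg : Lit (H.K s) g) :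
    Lit (H.K s') g := by
  refine hg.of_fun ?_
  filter_upwards [cc.nest s hs s' hs' hss] with k hk ω ω' a b c d
  exact hk ω ω' a b c d

theorem exists_ZD {σ : ℝ} (hσ : ∀ s ∈ Sc, s ≤ σ) (hd : Dns Sc σ) (hwσ : w * σ = 1) (hww : w1 ≤ w) {s0 : ℝ}
    (hs0 : s0 ∈ Sc) : Nonempty (ZD H f w1 w Sc s0) := by
  have n0 := cc.nn s0 hs0
  have hw1 := cc.hw1
  have hw := cc.hw
  have hsw : ∀ s ∈ Sc, w * s ≤ 1 := fun s hs => (mul_le_mul_of_nonneg_left (hσ s hs) (by linarith)).trans hwσ.le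
  have hsw1 : ∀ s ∈ Sc, w1 * s ≤ 1 := fun s hs => (mul_le_mul_of_nonneg_right hww (cc.nn s hs)).trans (hsw s hs)
  have b1 : s0 ≤ 1 := le1 cc hs0 (hsw1 s0 hs0)
  have b2 := hsw1 s0 hs0
  have b3 := hsw s0 hs0
  have b4 : (w1 - 1) * s0 ≤ 1 := by nlinarith
  have b5 : (w - 1) * s0 ≤ 1 := by nlinarith
  have b6 : (w - w1) * s0 ≤ 1 := by nlinarith
  have c2 : 0 ≤ w1 * s0 := by positivity
  have c3 : 0 ≤ w * s0 := by positivity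
  have c4 : 0 ≤ (w1 - 1) * s0 := mul_nonneg (by linarith) n0
  have c5 : 0 ≤ (w - 1) * s0 := mul_nonneg (by linarith) n0
  have c6 : 0 ≤ (w - w1) * s0 := mul_nonneg (by linarith) n0
  obtain ⟨lx, la, lF, lcR, lv, laz⟩ := cc.lA
  obtain ⟨lt, ly, lR, lz⟩ := cc.lB
  obtain ⟨Lt, Ly⟩ := cc.lt s0 hs0
  obtain ⟨Lr0, Lrt, Lry⟩ := cc.lr s0 hs0
  obtain ⟨Lz0, Lk0, Lk1, Lc⟩ := cc.lz s0 hs0
  have LFh : Lit (VAs H s0) (Fh H f s0) :=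
    (lit_A lF).sub ((lit_AK Lrt).add ((lit_AK Lry).mul (lit_A lx)))
  have Lvh : Lit (VAs H s0) (vh H f s0) :=
    (lit_A lv).sub (((lit_AK Lk0).add ((lit_AK Lk1).mul (lit_A lx))).add ((lit_AK Lc).mul (lit_A lF)))
  have LRh : Lit (VBs H s0) (Rh H f s0) :=
    (lit_B lR).sub (((lit_BK Lr0).add ((lit_BK Lrt).mul (lit_B lt))).add ((lit_BK Lry).mul (lit_B ly)))
  have LZh : Lit (VBs H s0) (Zh H f s0) :=
    (lit_B lz).sub ((((lit_BK Lz0).add ((lit_BK Lk0).mul (lit_B lt))).add ((lit_BK Lk1).mul (lit_B ly))).add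
      ((lit_BK Lc).mul (lit_B lR)))
  obtain ⟨T, hT, LT⟩ := div_rep n0 b1 (cc.ft s0 hs0).1 ((lit_B lt).sub (lit_BK Lt))
  obtain ⟨Y, hY, LY⟩ := div_rep n0 b1 (cc.fy s0 hs0).1 ((lit_B ly).sub (lit_BK Ly))
  obtain ⟨R, hR, LR⟩ := div_rep c2 b2 (cc.frR s0 hs0) LRh
  obtain ⟨Z, hZ, LZ⟩ := div_rep c3 b3 (cc.frZ s0 hs0) LZh
  obtain ⟨F, hF, LF⟩ := div_rep c4 b4 (Fh_mem cc hs0 b1 b2) LFh
  obtain ⟨v, hv, Lv⟩ := div_rep c5 b5 (vh_mem cc hs0 b1 b3) Lvh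
  obtain ⟨x, hx, Lx⟩ := lit_A (s := s0) lx
  have hR' : Rh H f s0 = sc S (w1 * s0) * mk R := hR
  have hZ' : Zh H f s0 = sc S (w * s0) * mk Z := hZ
  have s1 : sc S (w1 * s0) = sc S s0 * sc S ((w1 - 1) * s0) := by
    rw [← sc_add n0 c4]
    congr 1
    ring
  have s2 : sc S (w * s0) = sc S s0 * sc S ((w - 1) * s0) := by
    rw [← sc_add n0 c5]
    congr 1
    ring
  -- intercepts
  have ea : H.a - f.y0 s0 + f.t0 s0 * H.x = sc S s0 * (mk Y - mk T * H.x) := by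
    rw [mul_sub, ← mul_assoc, ← hY, ← hT]
    unfold HD0.a
    ring
  have eR : H.cR - f.r0 s0 - f.ry s0 * H.a + f.t0 s0 * Fh H f s0 = sc S (w1 * s0) * (mk R - mk T * mk F) := by
    have e1 : sc S (w1 * s0) * (mk R - mk T * mk F) =
        sc S (w1 * s0) * mk R - (sc S s0 * mk T) * (sc S ((w1 - 1) * s0) * mk F) := by
      rw [s1]
      ring
    rw [e1, ← hT, ← hF, ← hR']
    unfold HD0.cR HD0.a Rh Fh
    ring
  have ez : H.az - f.z0 s0 - f.k1 s0 * H.a - f.c s0 * H.cR + f.t0 s0 * vh H f s0 =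
      sc S (w * s0) * (mk Z - mk T * mk v) := by
    have e1 : sc S (w * s0) * (mk Z - mk T * mk v) =
        sc S (w * s0) * mk Z - (sc S s0 * mk T) * (sc S ((w - 1) * s0) * mk v) := by
      rw [s2]
      ring
    rw [e1, ← hT, ← hv, ← hZ']
    unfold HD0.az HD0.cR HD0.a Zh vh
    ring
  have memsc : ∀ (r : ℝ), 0 ≤ r → ∀ g : QS S, sc S r * g ∈ Id S r := fun r hr g =>
    (Id S r).mul_mem_right g (sc_mem hr)
  obtain ⟨a, hae, La⟩ := div_rep (V := VAs H s0) n0 b1 (ea ▸ memsc s0 n0 _)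
    (((lit_A la).sub (lit_AK Ly)).add ((lit_AK Lt).mul (lit_A lx)))
  obtain ⟨cR, hcRe, LcR⟩ := div_rep (V := VAs H s0) c2 b2 (eR ▸ memsc _ c2 _)
    ((((lit_A lcR).sub (lit_AK Lr0)).sub ((lit_AK Lry).mul (lit_A la))).add ((lit_AK Lt).mul LFh))
  obtain ⟨az, haze, Laz⟩ := div_rep (V := VAs H s0) c3 b3 (ez ▸ memsc _ c3 _)
    (((((lit_A laz).sub (lit_AK Lz0)).sub ((lit_AK Lk1).mul (lit_A la))).sub ((lit_AK Lc).mul (lit_A lcR))).add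
      ((lit_AK Lt).mul Lvh))
  -- frames
  have nest : ∀ s ∈ Sc, s0 ≤ s → ∀ {g : QS S}, Lit (H.K s0) g → Lit (H.K s) g := fun s hs h _ hg =>
    lit_nest cc hs0 hs h hg
  have P : ∀ s, (s ∈ Sc ∧ s0 ≤ s) → w1 * s ≤ 1 ∧ w * s ≤ 1 := fun s hs => ⟨hsw1 s hs.1, hsw s hs.1⟩
  obtain ⟨t0, ht0⟩ := div_fun (K := H.K) (P := fun s => s ∈ Sc ∧ s0 ≤ s) (f := fun s => f.t0 s - f.t0 s0) n0 b1
    (fun s hs => by
      have e : f.t0 s - f.t0 s0 = (H.t - f.t0 s0) - (H.t - f.t0 s) := by ring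
      rw [e]
      exact (Id S s0).sub_mem (cc.ft s0 hs0).1 (Id_anti hs.2 (cc.ft s hs.1).1))
    (fun s hs => (cc.lt s hs.1).1.sub (nest s hs.1 hs.2 Lt))
  obtain ⟨y0, hy0⟩ := div_fun (K := H.K) (P := fun s => s ∈ Sc ∧ s0 ≤ s) (f := fun s => f.y0 s - f.y0 s0) n0 b1
    (fun s hs => by
      have e : f.y0 s - f.y0 s0 = (H.y - f.y0 s0) - (H.y - f.y0 s) := by ring
      rw [e]
      exact (Id S s0).sub_mem (cc.fy s0 hs0).1 (Id_anti hs.2 (cc.fy s hs.1).1))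
    (fun s hs => (cc.lt s hs.1).2.sub (nest s hs.1 hs.2 Ly))
  obtain ⟨rt, hrt⟩ := div_fun (K := H.K) (P := fun s => s ∈ Sc ∧ s0 ≤ s) (f := fun s => f.rt s - f.rt s0) c4 b4
    (fun s hs => (inc_R cc hs0 hs.1 hs.2 (P s hs).1).1)
    (fun s hs => (cc.lr s hs.1).2.1.sub (nest s hs.1 hs.2 Lrt))
  obtain ⟨ry, hry⟩ := div_fun (K := H.K) (P := fun s => s ∈ Sc ∧ s0 ≤ s) (f := fun s => f.ry s - f.ry s0) c4 b4
    (fun s hs => (inc_R cc hs0 hs.1 hs.2 (P s hs).1).2)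
    (fun s hs => (cc.lr s hs.1).2.2.sub (nest s hs.1 hs.2 Lry))
  obtain ⟨r0, hr0⟩ := div_fun (K := H.K) (P := fun s => s ∈ Sc ∧ s0 ≤ s)
    (f := fun s => (f.r0 s - f.r0 s0) + (f.rt s - f.rt s0) * f.t0 s0 + (f.ry s - f.ry s0) * f.y0 s0) c2 b2
    (fun s hs => inc_r0 cc hs0 hs.1 hs.2 (P s hs).1)
    (fun s hs => (((cc.lr s hs.1).1.sub (nest s hs.1 hs.2 Lr0)).add
      (((cc.lr s hs.1).2.1.sub (nest s hs.1 hs.2 Lrt)).mul (nest s hs.1 hs.2 Lt))).add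
      (((cc.lr s hs.1).2.2.sub (nest s hs.1 hs.2 Lry)).mul (nest s hs.1 hs.2 Ly)))
  have Ldc : ∀ s, (s ∈ Sc ∧ s0 ≤ s) → Lit (H.K s) (f.c s - f.c s0) := fun s hs =>
    (cc.lz s hs.1).2.2.2.sub (nest s hs.1 hs.2 Lc)
  have LA0 : ∀ s, (s ∈ Sc ∧ s0 ≤ s) → Lit (H.K s) (A0 f s0 s) := fun s hs =>
    ((cc.lz s hs.1).2.1.sub (nest s hs.1 hs.2 Lk0)).add ((Ldc s hs).mul (nest s hs.1 hs.2 Lrt))
  have LA1 : ∀ s, (s ∈ Sc ∧ s0 ≤ s) → Lit (H.K s) (A1 f s0 s) := fun s hs =>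
    ((cc.lz s hs.1).2.2.1.sub (nest s hs.1 hs.2 Lk1)).add ((Ldc s hs).mul (nest s hs.1 hs.2 Lry))
  obtain ⟨c, hc⟩ := div_fun (K := H.K) (P := fun s => s ∈ Sc ∧ s0 ≤ s) (f := fun s => f.c s - f.c s0) c6 b6
    (fun s hs => inc_c cc hσ hd hs0 hs.1 hs.2 (P s hs).1 (P s hs).2) Ldc
  obtain ⟨k0, hk0⟩ := div_fun (K := H.K) (P := fun s => s ∈ Sc ∧ s0 ≤ s) (f := fun s => A0 f s0 s) c5 b5
    (fun s hs => (inc_A cc hσ hd hs0 hs.1 hs.2 (P s hs).1 (P s hs).2 hww).1) LA0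
  obtain ⟨k1, hk1⟩ := div_fun (K := H.K) (P := fun s => s ∈ Sc ∧ s0 ≤ s) (f := fun s => A1 f s0 s) c5 b5
    (fun s hs => (inc_A cc hσ hd hs0 hs.1 hs.2 (P s hs).1 (P s hs).2 hww).2) LA1
  obtain ⟨z0, hz0⟩ := div_fun (K := H.K) (P := fun s => s ∈ Sc ∧ s0 ≤ s)
    (f := fun s => (f.z0 s - f.z0 s0) + (f.c s - f.c s0) * f.r0 s0 + A0 f s0 s * f.t0 s0 + A1 f s0 s * f.y0 s0) c3 b3
    (fun s hs => inc_z0 cc hσ hd hs0 hs.1 hs.2 (P s hs).1 (P s hs).2 hww)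
    (fun s hs => ((((cc.lz s hs.1).1.sub (nest s hs.1 hs.2 Lz0)).add ((Ldc s hs).mul (nest s hs.1 hs.2 Lr0))).add
      ((LA0 s hs).mul (nest s hs.1 hs.2 Lt))).add ((LA1 s hs).mul (nest s hs.1 hs.2 Ly)))
  have dz : ∀ {r : ℝ} {p q : QS S}, 0 ≤ r → sc S r * p = sc S r * q → p - q ∈ Id S (1 - r) := by
    intro r p q hr e
    apply mem_of_sc_mul hr le_rfl
    rw [mul_sub, e, sub_self]
    exact Ideal.zero_mem _
  refine ⟨{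
    gA := ![x, a, F, cR, v, az]
    gB := ![T, Y, R, Z]
    litA := fun i => by
      fin_cases i
      · exact Lx
      · exact La
      · exact LF
      · exact LcR
      · exact Lv
      · exact Laz
    litB := fun i => by
      fin_cases i
      · exact LT
      · exact LY
      · exact LR
      · exact LZ
    hx := hx
    hT := hT
    hY := hY
    hR := hR
    hZ := hZ
    hF := hF
    hv := hv
    ha := dz n0 (ea.symm.trans hae)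
    hcR := dz c2 (eR.symm.trans hcRe)
    haz := dz c3 (ez.symm.trans haze)
    t0 := t0, y0 := y0, r0 := r0, rt := rt, ry := ry, z0 := z0, k0 := k0, k1 := k1, c := c
    ht0 := fun s h1 h2 => ht0 s ⟨h1, h2⟩
    hy0 := fun s h1 h2 => hy0 s ⟨h1, h2⟩
    hr0 := fun s h1 h2 => hr0 s ⟨h1, h2⟩
    hrt := fun s h1 h2 => hrt s ⟨h1, h2⟩
    hry := fun s h1 h2 => hry s ⟨h1, h2⟩
    hz0 := fun s h1 h2 => hz0 s ⟨h1, h2⟩
    hk0 := fun s h1 h2 => hk0 s ⟨h1, h2⟩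
    hk1 := fun s h1 h2 => hk1 s ⟨h1, h2⟩
    hc := fun s h1 h2 => hc s ⟨h1, h2⟩ }⟩

end

end Pool.Agent.Helper90.ZM2
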