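import Pool.Agent.Helper90.ZM2.Dat

/-! The zoomed corner: definition, digits, labels. -/

set_option autoImplicit false

namespace Pool.Agent.Helper90.ZM2

open Finset Filter Topology Pool.Agent.Helper69.RK Pool.Agent.Helper31.EC Pool.Agent.Helper82.TP
open Pool.Agent.Helper79.NF Pool.Agent.Helper31.NSB Pool.Agent.Helper90.BLD Pool.Agent.Helper90.NBR
open Pool.Agent.Helper60.CS Pool.Agent.Helper8.PLK
open Pool.Agent.Helper57.TA (sc sc_mul_mem sc_mul_mem_iff sc_add sc_zero mem_of_sc_mul sc_mem)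
open Pool.Agent.Helper32.BF2 (exists_div lit_sc dg_sc_mul)

noncomputable section

open Sp QS

variable {S : Sp} {H : RD S} {f : FR S} {w1 w : ℝ} {Sc : Set ℝ} {s0 : ℝ}

/-- the zoomed corner (depth `δ`) -/
def zRD (zd : ZD H f w1 w Sc s0) (hb : Bdd (H.K s0)) (δ : ℝ) (hδ : 0 < δ) (h1 : δ ≤ 1) : RD (S.chg hb.toInf.1 δ hδ) where
  t := qz hb.toInf.1 δ hδ h1 (mk (zd.gB 0))
  x := qz hb.toInf.1 δ hδ h1 H.x
  y := qz hb.toInf.1 δ hδ h1 (mk (zd.gB 1))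
  R := qz hb.toInf.1 δ hδ h1 (mk (zd.gB 2))
  F := qz hb.toInf.1 δ hδ h1 (mk (zd.gA 2))
  z := qz hb.toInf.1 δ hδ h1 (mk (zd.gB 3))
  v := qz hb.toInf.1 δ hδ h1 (mk (zd.gA 4))
  β := fun s => H.β (s0 + δ * s)
  K := fun s => H.K (s0 + δ * s)
  α := fun _ => Fin 6 → Fin 1 → ℤ
  VA := cel (S := S.chg hb.toInf.1 δ hδ) fun i => trc hb.toInf.1 δ hδ (zd.gA i)
  γ := fun _ => Fin 4 → Fin 1 → ℤ
  VB := cel (S := S.chg hb.toInf.1 δ hδ) fun i => trc hb.toInf.1 δ hδ (zd.gB i)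

/-- the zoomed frames -/
def zFR (zd : ZD H f w1 w Sc s0) (hb : Bdd (H.K s0)) (δ : ℝ) (hδ : 0 < δ) (h1 : δ ≤ 1) : FR (S.chg hb.toInf.1 δ hδ) where
  t0 := fun s => qz hb.toInf.1 δ hδ h1 (zd.t0 (s0 + δ * s))
  y0 := fun s => qz hb.toInf.1 δ hδ h1 (zd.y0 (s0 + δ * s))
  r0 := fun s => qz hb.toInf.1 δ hδ h1 (zd.r0 (s0 + δ * s))
  rt := fun s => qz hb.toInf.1 δ hδ h1 (zd.rt (s0 + δ * s))
  ry := fun s => qz hb.toInf.1 δ hδ h1 (zd.ry (s0 + δ * s))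
  z0 := fun s => qz hb.toInf.1 δ hδ h1 (zd.z0 (s0 + δ * s))
  k0 := fun s => qz hb.toInf.1 δ hδ h1 (zd.k0 (s0 + δ * s))
  k1 := fun s => qz hb.toInf.1 δ hδ h1 (zd.k1 (s0 + δ * s))
  c := fun s => qz hb.toInf.1 δ hδ h1 (zd.c (s0 + δ * s))

/-- the zoomed windows -/
def zSc (Sc : Set ℝ) (s0 δ σ' : ℝ) : Set ℝ := {s | 0 ≤ s ∧ s ≤ σ' ∧ s0 + δ * s ∈ Sc}

section basic

variable (zd : ZD H f w1 w Sc s0) (hb : Bdd (H.K s0)) (δ : ℝ) (hδ : 0 < δ) (h1 : δ ≤ 1)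

theorem cl_base : cl hb.toInf = H.κ s0 := (io_eq hb).symm

theorem z_κ {s : ℝ} (hs : Bdd (H.K (s0 + δ * s))) :
    (zRD zd hb δ hδ h1).κ s = chgL hb.toInf.1 δ hδ (H.κ (s0 + δ * s)) :=
  (chgL_io hb.toInf.1 δ hδ hs).symm

theorem z_dg (g : QS S) {s : ℝ} (hs : s ≤ 1) : dg (qz hb.toInf.1 δ hδ h1 g) s = chgL hb.toInf.1 δ hδ (dg g (δ * s)) :=
  qz_dg _ _ _ h1 g hs

/-- comparison over the base -/
theorem ch_le {x y : S.L} : chgL hb.toInf.1 δ hδ x ≤ chgL hb.toInf.1 δ hδ y ↔ x ≤ y ⊔ H.κ s0 := by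
  rw [chgL_le_inf, cl_base]

theorem ch_sup (x y : S.L) : chgL hb.toInf.1 δ hδ (x ⊔ y) = chgL hb.toInf.1 δ hδ x ⊔ chgL hb.toInf.1 δ hδ y :=
  chgL_sup _ _ _ x y

theorem ch_h (x y : S.L) : h (chgL hb.toInf.1 δ hδ x) (chgL hb.toInf.1 δ hδ y) = h x (y ⊔ H.κ s0) / δ := by
  rw [h_chgL_inf, cl_base]

theorem ch_base : chgL hb.toInf.1 δ hδ (H.κ s0) = ⊥ := by
  rw [← cl_base hb]
  exact chgL_base δ hδ hb.toInf

end basic

/-- digits of scaled functions -/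
theorem dg_of_sc {u g : QS S} {r s : ℝ} (hr : 0 ≤ r) (hs : r + s ≤ 1) (e : u = sc S r * g) : dg g s = dg u (r + s) := by
  rw [e, dg_sc_mul g hr hs]

end

end Pool.Agent.Helper90.ZM2
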