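import Pool.Agent.Helper8.PLK.Zr
import Pool.Agent.Helper32.BF2.Sc
import Pool.Agent.Helper79.NF.Def

/-! Zoom over a label to a depth: small functions, literal functions, cells of given representatives. -/

set_option autoImplicit false

namespace Pool.Agent.Helper90.ZM2

open Finset Filter Topology Pool.Agent.Helper69.RK Pool.Agent.Helper31.EC Pool.Agent.Helper82.TP
open Pool.Agent.Helper60.CS Pool.Agent.Helper8.PLK
open Pool.Agent.Helper57.TA (sc sc_mul_mem sc_mul_mem_iff sc_add sc_zero)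

noncomputable section

open Sp QS

variable {S : Sp}

section cells

/-- cells of given tame functions at the level `1` -/
def cel {N : ℕ} (c : Fin N → TR S) : ∀ k, (S.F k).Ω → (Fin N → Fin 1 → ℤ) :=
  fun k ω i => (TR.vec (fun _ : Fin 1 => c i)).cellv 1 k ω

theorem cel_bdd {N : ℕ} (c : Fin N → TR S) : Bdd (α := fun _ => Fin N → Fin 1 → ℤ) (cel c) ∧
    io (α := fun _ => Fin N → Fin 1 → ℤ) (cel c) = Finset.univ.sup fun i => dg (mk (c i)) 1 := by
  have h1 := bdd_pi (fun i => (TR.vec (fun _ : Fin 1 => c i)).cellv 1) (fun i =>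
    (TR.vec (fun _ : Fin 1 => c i)).bdd 1)
  refine ⟨h1.1, h1.2.trans ?_⟩
  congr 1
  funext i
  rw [dg_mk _ le_rfl]
  rfl

theorem cel_lit {N : ℕ} (c : Fin N → TR S) (i : Fin N) : Lit (cel c) (mk (c i)) := by
  refine ⟨TR.cor ((TR.vec fun _ : Fin 1 => c i).fl 1 zero_le_one) 0, ?_, ?_⟩
  · have h1 : mk (c i) - mk (TR.cor ((TR.vec fun _ : Fin 1 => c i).fl 1 zero_le_one) 0) ∈ Id S 1 := by
      rw [← map_sub, Pool.Agent.Helper57.TA.mem_Id_iff, min_self]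
      refine ⟨fun _ _ => True, fun _ => 1, Typ_true, S.Sub_const zero_le_one, Eventually.of_forall fun k ω _ _ => ?_⟩
      rw [TR.ev_zero, sub_zero, TR.ev_sub, one_mul]
      have h1 := VV.fl_sub (TR.vec (fun _ : Fin 1 => c i)) 1 zero_le_one k ω 0
      show |(TR.vec (fun _ : Fin 1 => c i)).v k ω 0 - ((TR.vec (fun _ : Fin 1 => c i)).fl 1 zero_le_one).v k ω 0| ≤ _
      rw [abs_of_nonneg h1.1]
      exact h1.2.le
    rw [mem_Id_one, sub_eq_zero] at h1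
    exact h1.symm
  · refine Eventually.of_forall fun k ω ω' _ _ _ e => ?_
    have h1 := congrFun (congrFun e i) 0
    show (⌊(TR.vec fun _ : Fin 1 => c i).v k ω 0 / S.dl 1 k⌋ : ℝ) * S.dl 1 k =
      (⌊(TR.vec fun _ : Fin 1 => c i).v k ω' 0 / S.dl 1 k⌋ : ℝ) * S.dl 1 k
    have h2 : ⌊(TR.vec fun _ : Fin 1 => c i).v k ω 0 / S.dl 1 k⌋ =
      ⌊(TR.vec fun _ : Fin 1 => c i).v k ω' 0 / S.dl 1 k⌋ := h1
    rw [h2]

/-- cells are functions of the values -/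
theorem cel_congr {N : ℕ} (c : Fin N → TR S) (k : ℕ) (ω ω' : (S.F k).Ω)
    (h : ∀ i, TR.ev (c i) k ω = TR.ev (c i) k ω') : cel c k ω = cel c k ω' := by
  funext i j
  show ⌊TR.ev (c i) k ω / S.dl 1 k⌋ = ⌊TR.ev (c i) k ω' / S.dl 1 k⌋
  rw [h i]

end cells

section zoom

variable (V : S.Inf) (r : ℝ) (hr : 0 < r) (h1 : r ≤ 1)

theorem qz_mem {f : QS S} {s : ℝ} (hs : s ≤ 1) : qz V.1 r hr h1 f ∈ Id (S.chg V.1 r hr) s ↔ f ∈ Id S (r * s) := by
  obtain ⟨f, rfl⟩ := mk_surj f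
  have hrs : r * s ≤ 1 := by nlinarith
  rw [qz_mk, mk_mem_Id hs, mk_mem_Id hrs, ← map_zero (trc V.1 r hr), trz_ag]

theorem qz_eq {f g : QS S} : qz V.1 r hr h1 f = qz V.1 r hr h1 g ↔ f - g ∈ Id S r := by
  rw [← sub_eq_zero, ← map_sub, qz_eq_zero]

theorem qz_rest_mem (E : ∀ k, (S.F k).Ω → Prop) (hE : 0 < ul (S.pr E)) {f : QS S} {s : ℝ} (hs : s ≤ 1) :
    QS.rest (S := S.chg V.1 r hr) E hE (qz V.1 r hr h1 f) ∈ Id ((S.chg V.1 r hr).rest E) s ↔
      QS.rest E hE f ∈ Id (S.rest E) (r * s) := by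
  rw [rest_qz V r hr E hE h1 f]
  exact qz_mem (S := S.rest E) (restI E V) r hr h1 hs

/-- literal functions of the space are literal in the zoom -/
theorem lit_qz {β : ℕ → Type} {X : ∀ k, (S.F k).Ω → β k} {f : QS S} (hf : Lit X f) :
    Lit (S := S.chg V.1 r hr) X (qz V.1 r hr h1 f) := by
  obtain ⟨g, rfl, h⟩ := hf
  refine ⟨trc V.1 r hr g, rfl, ?_⟩
  filter_upwards [h] with k hk ω ω' a b c d
  exact hk ω ω' a b c.2 d

/-- literal functions of the zoom come from literal functions of the space -/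
theorem lit_up {β γ : ℕ → Type} {X : ∀ k, (S.F k).Ω → β k} {Y : ∀ k, (S.F k).Ω → γ k} {g : QS (S.chg V.1 r hr)}
    (hg : Lit (S := S.chg V.1 r hr) X g)
    (h : ∀ᶠ k in UF, ∀ ω ω', (S.F k).μ ω ≠ 0 → (S.F k).μ ω' ≠ 0 → (S.F k).Z ω ω' → Y k ω = Y k ω' →
      V.1 k ω ω' ∧ X k ω = X k ω') : ∃ f : QS S, qz V.1 r hr h1 f = g ∧ Lit Y f := by
  obtain ⟨g, rfl, hg⟩ := hg
  obtain ⟨f, rfl⟩ := trz_surj V.1 r hr g
  refine ⟨mk f, rfl, f, rfl, ?_⟩
  filter_upwards [h, hg] with k hk hk' ω ω' a b c d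
  obtain ⟨e1, e2⟩ := hk ω ω' a b c d
  exact hk' ω ω' a b ⟨e1, c⟩ e2

/-- the unit of the zoom -/
theorem qz_sc {s : ℝ} (hs : 0 ≤ s) : qz V.1 r hr h1 (sc S (r * s)) = sc (S.chg V.1 r hr) s := by
  unfold sc
  rw [qz_mk]
  congr 1
  apply Subtype.ext
  funext k ω
  show S.dl (max (r * s) 0) k = (S.chg V.1 r hr).dl (max s 0) k
  rw [max_eq_left hs, max_eq_left (mul_nonneg hr.le hs), chg_dl]

end zoom

/-- inequality of entropies under a joint condition -/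
theorem h_le_of {L : Type*} [PM L] {A A' B B' : L} (hA : A ≤ A' ⊔ B) (hB : B' ≤ B) : h A B ≤ h A' B' := by
  have e1 := h_mono (B := B) hA
  rw [h_sup_right_of_le le_rfl] at e1
  exact e1.trans (h_anti hB)

end

end Pool.Agent.Helper90.ZM2
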