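import Pool.Agent.Helper90.NBR.Main
import Pool.Agent.Helper90.ZM2.Fun

/-! Increments of the frames between two windows (`w1 ≤ w`), unsaturation of `z` in the box of a window. -/

set_option autoImplicit false

namespace Pool.Agent.Helper90.ZM2

open Finset Filter Topology Pool.Agent.Helper69.RK Pool.Agent.Helper31.EC Pool.Agent.Helper82.TP
open Pool.Agent.Helper79.NF Pool.Agent.Helper31.NSB Pool.Agent.Helper90.BLD Pool.Agent.Helper90.NBR

noncomputable section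

open Sp QS

variable {S : Sp} {H : RD S} {f : FR S} {w1 w : ℝ} {Sc : Set ℝ} (cc : C0 H f w1 w Sc)

/-- increment of the coefficient of `t` -/
def A0 (f : FR S) (s s' : ℝ) : QS S := (f.k0 s' - f.k0 s) + (f.c s' - f.c s) * f.rt s
/-- increment of the coefficient of `y` -/
def A1 (f : FR S) (s s' : ℝ) : QS S := (f.k1 s' - f.k1 s) + (f.c s' - f.c s) * f.ry s

theorem Zh_inc (H : RD S) (f : FR S) (s s' : ℝ) : Zh H f s = Zh H f s' + ((f.z0 s' - f.z0 s) + (f.c s' - f.c s) * f.r0 s +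
    A0 f s s' * H.t + A1 f s s' * H.y + (f.c s' - f.c s) * Rh H f s) := by
  unfold Zh Rh A0 A1
  ring

theorem Rh_inc (H : RD S) (f : FR S) (s s' : ℝ) : Rh H f s = Rh H f s' + ((f.r0 s' - f.r0 s) +
    (f.rt s' - f.rt s) * H.t + (f.ry s' - f.ry s) * H.y) := by
  unfold Rh
  ring

include cc

theorem dcK {s s' : ℝ} (hs : s ∈ Sc) (hs' : s' ∈ Sc) (hss : s ≤ s') : dg (f.c s' - f.c s) 1 ≤ H.κ s' :=
  sub_le1 (cK cc hs') ((cK cc hs).trans (cc.mono s hs s' hs' hss))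

theorem A0K {s s' : ℝ} (hs : s ∈ Sc) (hs' : s' ∈ Sc) (hss : s ≤ s') : dg (A0 f s s') 1 ≤ H.κ s' := by
  have hκ := cc.mono s hs s' hs' hss
  exact add_le1 (sub_le1 (k0K cc hs') ((k0K cc hs).trans hκ)) (mul_le1 (dcK cc hs hs' hss) ((rtK cc hs).trans hκ))

theorem A1K {s s' : ℝ} (hs : s ∈ Sc) (hs' : s' ∈ Sc) (hss : s ≤ s') : dg (A1 f s s') 1 ≤ H.κ s' := by
  have hκ := cc.mono s hs s' hs' hss
  exact add_le1 (sub_le1 (k1K cc hs') ((k1K cc hs).trans hκ)) (mul_le1 (dcK cc hs hs' hss) ((ryK cc hs).trans hκ))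

theorem z0I {s s' : ℝ} (hs : s ∈ Sc) (hs' : s' ∈ Sc) (hss : s ≤ s') :
    dg ((f.z0 s' - f.z0 s) + (f.c s' - f.c s) * f.r0 s) 1 ≤ H.κ s' := by
  have hκ := cc.mono s hs s' hs' hss
  exact add_le1 (sub_le1 (z0K cc hs') ((z0K cc hs).trans hκ)) (mul_le1 (dcK cc hs hs' hss) ((r0K cc hs).trans hκ))

/-- increments of the coefficients of `z` -/
theorem inc_A {σ : ℝ} (hσ : ∀ s ∈ Sc, s ≤ σ) (hd : Dns Sc σ) {s s' : ℝ} (hs : s ∈ Sc) (hs' : s' ∈ Sc) (hss : s ≤ s')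
    (h2 : w1 * s' ≤ 1) (h3 : w * s' ≤ 1) (hww : w1 ≤ w) :
    A0 f s s' ∈ Id S ((w - 1) * s) ∧ A1 f s s' ∈ Id S ((w - 1) * s) := by
  have n0 := cc.nn s hs
  have hw1 := cc.hw1
  have hw := cc.hw
  have hws : (w - 1) * s ≤ 1 := by nlinarith
  have h2s : w1 * s ≤ 1 := (mul_le_mul_of_nonneg_left hss (by linarith)).trans h2
  have h3s : w * s ≤ 1 := (mul_le_mul_of_nonneg_left hss (by linarith)).trans h3
  have hc := inc_c cc hσ hd hs hs' hss h2 h3
  have mF := Fh_mem cc hs (le1 cc hs h2s) h2s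
  have e1 : vh H f s - vh H f s' - (f.c s' - f.c s) * Fh H f s = A0 f s s' + A1 f s s' * H.x := by
    unfold Fh vh A0 A1
    ring
  have mcF : (f.c s' - f.c s) * Fh H f s ∈ Id S ((w - 1) * s) := by
    have a1 := Helper80.MX.Id_mul (by nlinarith) (by nlinarith) hc mF
    have a2 : (w - w1) * s + (w1 - 1) * s = (w - 1) * s := by ring
    rwa [a2] at a1
  have mA := (Id S ((w - 1) * s)).sub_mem ((Id S ((w - 1) * s)).sub_mem (vh_mem cc hs (le1 cc hs h2s) h3s)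
    (Id_anti (mul_le_mul_of_nonneg_left hss (by linarith)) (vh_mem cc hs' (le1 cc hs' h2) h3))) mcF
  rw [e1] at mA
  exact xcoef cc hs' (A0K cc hs hs' hss) (A1K cc hs hs' hss) hws mA

/-- increments of the constant coefficient of `R` -/
theorem inc_r0 {s s' : ℝ} (hs : s ∈ Sc) (hs' : s' ∈ Sc) (hss : s ≤ s') (h2 : w1 * s' ≤ 1) :
    (f.r0 s' - f.r0 s) + (f.rt s' - f.rt s) * f.t0 s + (f.ry s' - f.ry s) * f.y0 s ∈ Id S (w1 * s) := by
  have n0 := cc.nn s hs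
  have hw1 := cc.hw1
  have hs1 := le1 cc hs' h2
  obtain ⟨m1, m2⟩ := inc_R cc hs hs' hss h2
  have m3 := Helper80.MX.Id_mul (by nlinarith) (by linarith) m1 (cc.ft s hs).1
  have m4 := Helper80.MX.Id_mul (by nlinarith) (by linarith) m2 (cc.fy s hs).1
  have e0 : (w1 - 1) * s + s = w1 * s := by ring
  rw [e0] at m3 m4
  have m5 := (Id S (w1 * s)).sub_mem (cc.frR s hs) (Id_anti (mul_le_mul_of_nonneg_left hss (by linarith)) (cc.frR s' hs'))
  have m6 := (Id S (w1 * s)).sub_mem ((Id S (w1 * s)).sub_mem m5 m3) m4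
  have e1 : H.R - (f.r0 s + f.rt s * H.t + f.ry s * H.y) - (H.R - (f.r0 s' + f.rt s' * H.t + f.ry s' * H.y)) -
      (f.rt s' - f.rt s) * (H.t - f.t0 s) - (f.ry s' - f.ry s) * (H.y - f.y0 s) =
      (f.r0 s' - f.r0 s) + (f.rt s' - f.rt s) * f.t0 s + (f.ry s' - f.ry s) * f.y0 s := by ring
  rwa [e1] at m6

/-- increments of the constant coefficient of `z` -/
theorem inc_z0 {σ : ℝ} (hσ : ∀ s ∈ Sc, s ≤ σ) (hd : Dns Sc σ) {s s' : ℝ} (hs : s ∈ Sc) (hs' : s' ∈ Sc) (hss : s ≤ s')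
    (h2 : w1 * s' ≤ 1) (h3 : w * s' ≤ 1) (hww : w1 ≤ w) :
    (f.z0 s' - f.z0 s) + (f.c s' - f.c s) * f.r0 s + A0 f s s' * f.t0 s + A1 f s s' * f.y0 s ∈ Id S (w * s) := by
  have n0 := cc.nn s hs
  have hw1 := cc.hw1
  have hw := cc.hw
  have hs1 := le1 cc hs' h2
  obtain ⟨m1, m2⟩ := inc_A cc hσ hd hs hs' hss h2 h3 hww
  have hc := inc_c cc hσ hd hs hs' hss h2 h3
  have m3 := Helper80.MX.Id_mul (by nlinarith) (by linarith) m1 (cc.ft s hs).1
  have m4 := Helper80.MX.Id_mul (by nlinarith) (by linarith) m2 (cc.fy s hs).1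
  have e0 : (w - 1) * s + s = w * s := by ring
  rw [e0] at m3 m4
  have m7 := Helper80.MX.Id_mul (by nlinarith) (by nlinarith) hc (cc.frR s hs)
  have e7 : (w - w1) * s + w1 * s = w * s := by ring
  rw [e7] at m7
  have m5 := (Id S (w * s)).sub_mem (cc.frZ s hs) (Id_anti (mul_le_mul_of_nonneg_left hss (by linarith)) (cc.frZ s' hs'))
  have m6 := (Id S (w * s)).sub_mem ((Id S (w * s)).sub_mem ((Id S (w * s)).sub_mem m5 m3) m4) m7
  have e1 : H.z - (f.z0 s + f.k0 s * H.t + f.k1 s * H.y + f.c s * H.R) -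
      (H.z - (f.z0 s' + f.k0 s' * H.t + f.k1 s' * H.y + f.c s' * H.R)) -
      A0 f s s' * (H.t - f.t0 s) - A1 f s s' * (H.y - f.y0 s) -
      (f.c s' - f.c s) * (H.R - (f.r0 s + f.rt s * H.t + f.ry s * H.y)) =
      (f.z0 s' - f.z0 s) + (f.c s' - f.c s) * f.r0 s + A0 f s s' * f.t0 s + A1 f s s' * f.y0 s := by
    unfold A0 A1
    ring
  rwa [e1] at m6

/-- the digits of `z` up to the box of a later window are functions of its label and of the digits of `M` -/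
theorem Zh_le {σ : ℝ} (hσ : ∀ s ∈ Sc, s ≤ σ) (hd : Dns Sc σ) {s s' : ℝ} (hs : s ∈ Sc) (hs' : s' ∈ Sc) (hss : s ≤ s')
    (h2 : w1 * s' ≤ 1) (h3 : w * s' ≤ 1) (hww : w1 ≤ w) {D : ℝ} (hD : w * s' = w * s + D) :
    dg (Zh H f s) (w * s + D) ≤
      H.κ s' ⊔ (dg H.t (s + D) ⊔ dg H.y (s + D) ⊔ dg (Rh H f s) (w1 * s + D)) := by
  have n0 := cc.nn s hs
  have hw1 := cc.hw1
  have hw := cc.hw
  have hD1 : w * s + D ≤ 1 := by rw [← hD]; exact h3
  obtain ⟨m1, m2⟩ := inc_A cc hσ hd hs hs' hss h2 h3 hww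
  have hc := inc_c cc hσ hd hs hs' hss h2 h3
  have hD0 : 0 ≤ D := by nlinarith
  have m0 : Zh H f s - ((f.z0 s' - f.z0 s) + (f.c s' - f.c s) * f.r0 s + A0 f s s' * H.t + A1 f s s' * H.y +
      (f.c s' - f.c s) * Rh H f s) ∈ Id S (w * s') := by
    have e1 : Zh H f s - ((f.z0 s' - f.z0 s) + (f.c s' - f.c s) * f.r0 s + A0 f s s' * H.t + A1 f s s' * H.y +
      (f.c s' - f.c s) * Rh H f s) = Zh H f s' := by
      rw [Zh_inc H f s s']
      ring
    rw [e1]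
    exact cc.frZ s' hs'
  refine dg_le_of_sub m0 hD.ge hD1 ?_
  refine dg_add_le' _ _ hD1 (dg_add_le' _ _ hD1 (dg_add_le' _ _ hD1 ?_ ?_) ?_) ?_
  · exact ((dg_mono _ hD1).trans (z0I cc hs hs' hss)).trans le_sup_left
  · have e1 : w * s + D = (w - 1) * s + (s + D) := by ring
    have a1 := dg_mul_small H.t (A0 f s s') (a := (w - 1) * s) (b := s + D) (by linarith) (by nlinarith) (by nlinarith) m1
    rw [← e1] at a1
    rw [mul_comm]
    refine a1.trans (sup_le (((le_sup_left.trans le_sup_left)).trans le_sup_right) ?_)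
    exact ((dg_mono _ hD1).trans (A0K cc hs hs' hss)).trans le_sup_left
  · have e1 : w * s + D = (w - 1) * s + (s + D) := by ring
    have a1 := dg_mul_small H.y (A1 f s s') (a := (w - 1) * s) (b := s + D) (by linarith) (by nlinarith) (by nlinarith) m2
    rw [← e1] at a1
    rw [mul_comm]
    refine a1.trans (sup_le (((le_sup_right.trans le_sup_left)).trans le_sup_right) ?_)
    exact ((dg_mono _ hD1).trans (A1K cc hs hs' hss)).trans le_sup_left
  · have e1 : w * s + D = (w - w1) * s + (w1 * s + D) := by ring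
    have a1 := dg_mul_small (Rh H f s) (f.c s' - f.c s) (a := (w - w1) * s) (b := w1 * s + D) (by linarith)
      (by nlinarith) (by nlinarith) hc
    rw [← e1] at a1
    rw [mul_comm]
    refine a1.trans (sup_le (le_sup_right.trans le_sup_right) ?_)
    exact ((dg_mono _ hD1).trans (dcK cc hs hs' hss)).trans le_sup_left

end

end Pool.Agent.Helper90.ZM2
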