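import Pool.Agent.Helper90.ZM2.Inc2
import Pool.Agent.Helper62.UR.Sw

/-! Unsaturation of `z` in the box of a window. -/

set_option autoImplicit false

namespace Pool.Agent.Helper90.ZM2

open Finset Filter Topology Pool.Agent.Helper69.RK Pool.Agent.Helper31.EC Pool.Agent.Helper82.TP
open Pool.Agent.Helper79.NF Pool.Agent.Helper31.NSB Pool.Agent.Helper90.BLD Pool.Agent.Helper90.NBR

noncomputable section

section lat
variable {L : Type*} [PM L]

/-- digits `Zb`, `Za ≤ Zb`, determined by a label which is independent of `M`: conditioning on all of `M` changes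
nothing -/
theorem nc_lat {K M C Za Zb : L} (hab : Za ≤ Zb) (h1 : Zb ≤ K ⊔ C) (h2 : I K M C = 0) :
    h Zb (Za ⊔ C) = h Zb (Za ⊔ (M ⊔ C)) := by
  have i1 : I Zb M C = 0 := I_zero_mono h2 h1 le_sup_left
  have i2 : I Za M C = 0 := I_zero_mono i1 (hab.trans le_sup_left) le_sup_left
  rw [I_zero_iff_h] at i1 i2
  have e1 := h_chain Za Zb C
  have e2 := h_chain Za Zb (M ⊔ C)
  rw [sup_eq_right.mpr hab] at e1 e2
  linarith

end lat

open Sp QS

variable {S : Sp} {H : RD S} {f : FR S} {w1 w ρ : ℝ} {Sc : Set ℝ} (cc : CC H f w1 w ρ Sc)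

include cc

/-- at a window -/
theorem uns_win {σ : ℝ} (hσ : ∀ s ∈ Sc, s ≤ σ) (hd : Dns Sc σ) (hww : w1 ≤ w) {s s' : ℝ} (hs : s ∈ Sc)
    (hs' : s' ∈ Sc) (hss : s ≤ s') (h3 : w * s' ≤ 1) {b : ℝ} (hb : w * s' = w * s + b)
    (T : Sp) (p : Pj T S) (E : ∀ k, (T.F k).Ω → Prop) (hE : 0 < ul (T.pr E)) {a : ℝ} (ha : 0 ≤ a) (hab : a ≤ b) :
    h (restL E hE (p.map (dg (Zh H f s) (w * s + b))))
      (restL E hE (p.map (dg (Zh H f s) (w * s + a) ⊔ (H.κ s ⊔
        (dg H.t (s + b) ⊔ dg H.y (s + b) ⊔ dg (Rh H f s) (w1 * s + b)))))) ≤ (1 - ρ) * (b - a) := by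
  have n0 := cc.nn s hs
  have n0' := cc.nn s' hs'
  have hw1 := cc.hw1
  have hw := cc.hw
  have h2 : w1 * s' ≤ 1 := (mul_le_mul_of_nonneg_right hww n0').trans h3
  have hb1 : w * s + b ≤ 1 := by rw [← hb]; exact h3
  have hbox : w1 * s' ≤ w1 * s + b := by nlinarith
  have hb4 : w1 * s + b ≤ 1 := by nlinarith
  have hsb : s + b ≤ 1 := by nlinarith
  have hκ := cc.mono s hs s' hs' hss
  -- digits determined by the later label
  have e1 := Zh_le cc.toC0 hσ hd hs hs' hss h2 h3 hww hb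
  have e2 := ind_M0 cc.toC0 hs hs' hss h2 (ha.trans hab) hbox hb4
  have mono1 : dg (Zh H f s) (w * s + a) ≤ dg (Zh H f s) (w * s + b) := dg_mono _ (by linarith)
  have e3 : I (restL E hE (p.map (H.κ s'))) (restL E hE (p.map H.M)) (restL E hE (p.map (H.κ s ⊔
      (dg H.t (s + b) ⊔ dg H.y (s + b) ⊔ dg (Rh H f s) (w1 * s + b))))) = 0 := by
    apply I_rest_zero E hE
    rw [p.I_map]
    exact e2
  have e4 := nc_lat (restL_mono E hE (p.map_mono mono1))
    (show restL E hE (p.map (dg (Zh H f s) (w * s + b))) ≤ restL E hE (p.map (H.κ s')) ⊔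
      restL E hE (p.map (H.κ s ⊔ (dg H.t (s + b) ⊔ dg H.y (s + b) ⊔ dg (Rh H f s) (w1 * s + b)))) by
        rw [← restL_sup, ← p.map_sup]
        exact restL_mono E hE (p.map_mono (e1.trans (sup_le_sup_left le_sup_right _)))) e3
  rw [p.map_sup, restL_sup, e4]
  refine le_trans ?_ (cc.uns T p E hE (w * s + a) (w * s + b) (by positivity) (by linarith) hb1 |>.trans
    (le_of_eq (by ring)))
  rw [← restL_sup, ← restL_sup, ← p.map_sup, ← p.map_sup]
  have kk : ∀ {A B : S.L}, A ≤ B → restL E hE (p.map A) ≤ restL E hE (p.map B) := fun hAB =>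
    restL_mono E hE (p.map_mono hAB)
  apply h_le_of
  · rw [← restL_sup, ← p.map_sup]
    apply kk
    unfold Zh
    have kt : dg H.t (w * s + b) ≤ H.M := (dg_mono _ hb1).trans (le_sup_left.trans le_sup_left)
    have ky : dg H.y (w * s + b) ≤ H.M := (dg_mono _ hb1).trans (le_sup_right.trans le_sup_left)
    have kR : dg H.R (w * s + b) ≤ H.M := (dg_mono _ hb1).trans le_sup_right
    have kκ : ∀ {u : QS S}, dg u 1 ≤ H.κ s → dg u (w * s + b) ≤ H.κ s := fun hu => (dg_mono _ hb1).trans hu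
    refine dg_sub_le' _ _ hb1 le_sup_left (le_trans (b := H.M ⊔ H.κ s) ?_ ?_)
    · exact dg_add_le' _ _ hb1 (dg_add_le' _ _ hb1 (dg_add_le' _ _ hb1 ((kκ (z0K cc.toC0 hs)).trans le_sup_right)
        (dg_mul_le' _ _ hb1 ((kκ (k0K cc.toC0 hs)).trans le_sup_right) (kt.trans le_sup_left)))
        (dg_mul_le' _ _ hb1 ((kκ (k1K cc.toC0 hs)).trans le_sup_right) (ky.trans le_sup_left)))
        (dg_mul_le' _ _ hb1 ((kκ (cK cc.toC0 hs)).trans le_sup_right) (kR.trans le_sup_left))
    · refine le_trans ?_ le_sup_right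
      refine le_trans ?_ le_sup_right
      exact sup_le_sup_left le_sup_left _
  · apply kk
    have hX : ∀ {X : S.L}, dg (Zh H f s) (w * s + a) ≤ X → H.κ s ≤ X → H.M ≤ X → dg H.z (w * s + a) ≤ X := by
      intro X x1 x2 x3
      have ha1 : w * s + a ≤ 1 := by linarith
      have kt : dg H.t (w * s + a) ≤ X := (dg_mono _ ha1).trans ((le_sup_left.trans le_sup_left).trans x3)
      have ky : dg H.y (w * s + a) ≤ X := (dg_mono _ ha1).trans ((le_sup_right.trans le_sup_left).trans x3)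
      have kR : dg H.R (w * s + a) ≤ X := (dg_mono _ ha1).trans (le_sup_right.trans x3)
      have kκ : ∀ {u : QS S}, dg u 1 ≤ H.κ s → dg u (w * s + a) ≤ X := fun hu => ((dg_mono _ ha1).trans hu).trans x2
      have e5 : H.z = Zh H f s + (f.z0 s + f.k0 s * H.t + f.k1 s * H.y + f.c s * H.R) := by
        unfold Zh
        ring
      rw [e5]
      exact dg_add_le' _ _ ha1 x1 (dg_add_le' _ _ ha1 (dg_add_le' _ _ ha1 (dg_add_le' _ _ ha1 (kκ (z0K cc.toC0 hs))
        (dg_mul_le' _ _ ha1 (kκ (k0K cc.toC0 hs)) kt)) (dg_mul_le' _ _ ha1 (kκ (k1K cc.toC0 hs)) ky))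
        (dg_mul_le' _ _ ha1 (kκ (cK cc.toC0 hs)) kR))
    refine sup_le (hX le_sup_left ((le_sup_left.trans le_sup_right).trans le_sup_right)
      (le_sup_left.trans le_sup_right)) ?_
    refine le_trans ?_ (le_sup_left.trans le_sup_right : H.M ≤ _)
    exact sup_le_sup (sup_le_sup (dg_mono _ hb1) (dg_mono _ hb1)) (dg_mono _ hb1)

/-- UNSATURATION IN THE BOX OF A WINDOW -/
theorem uns_box {σ : ℝ} (hσ : ∀ s ∈ Sc, s ≤ σ) (hd : Dns Sc σ) (hwσ : w * σ = 1) (hww : w1 ≤ w) {s : ℝ} (hs : s ∈ Sc)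
    (T : Sp) (p : Pj T S) (E : ∀ k, (T.F k).Ω → Prop) (hE : 0 < ul (T.pr E)) {a b : ℝ} (ha : 0 ≤ a) (hab : a ≤ b)
    (hb1 : w * s + b ≤ 1) :
    h (restL E hE (p.map (dg (Zh H f s) (w * s + b))))
      (restL E hE (p.map (dg (Zh H f s) (w * s + a) ⊔ (H.κ s ⊔
        (dg H.t (s + b) ⊔ dg H.y (s + b) ⊔ dg (Rh H f s) (w1 * s + b)))))) ≤ (1 - ρ) * (b - a) := by
  have n0 := cc.nn s hs
  have hw1 := cc.hw1
  have hw := cc.hw
  have hw0 : 0 < w := by linarith
  rcases hab.eq_or_lt with rfl | hab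
  · rw [sub_self, mul_zero]
    exact (h_zero (restL_mono E hE (p.map_mono le_sup_left))).le
  refine le_of_forall_pos_le_add fun ε hε => ?_
  set C : ℝ := |1 - ρ| with hC
  have hC0 : 0 ≤ C := abs_nonneg _
  set η : ℝ := ε / (1 + C) with hη
  have hη0 : 0 < η := by positivity
  have hηe : η * (1 + C) = ε := by rw [hη]; field_simp
  obtain ⟨s', hs', a1, a2⟩ := hd (s + max a (b - η) / w) (s + b / w) (by
      have : 0 ≤ max a (b - η) := le_max_of_le_left ha
      positivity) (by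
      have : max a (b - η) < b := max_lt hab (by linarith)
      have : max a (b - η) / w < b / w := div_lt_div_of_pos_right this hw0
      linarith) (by
      have : w * (s + b / w) ≤ w * σ := by
        rw [hwσ, mul_add, mul_div_cancel₀ _ hw0.ne']
        exact hb1
      exact le_of_mul_le_mul_left this hw0)
  set b' : ℝ := w * (s' - s) with hb'
  have c1 : max a (b - η) < b' := by
    have : max a (b - η) / w < s' - s := by linarith
    rw [div_lt_iff₀ hw0] at this
    rw [hb']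
    linarith
  have c2 : b' < b := by
    have : s' - s < b / w := by linarith
    rw [lt_div_iff₀ hw0] at this
    rw [hb']
    linarith
  have c3 : a ≤ b' := (le_max_left _ _).trans c1.le
  have c4 : b - η ≤ b' := (le_max_right _ _).trans c1.le
  have hss : s ≤ s' := by
    have : 0 ≤ max a (b - η) / w := div_nonneg (le_max_of_le_left ha) hw0.le
    linarith
  have e0 : w * s' = w * s + b' := by rw [hb']; ring
  have key := uns_win cc hσ hd hww hs hs' hss (by linarith) e0 T p E hE ha c3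
  have kk : ∀ {A B : S.L}, A ≤ B → restL E hE (p.map A) ≤ restL E hE (p.map B) := fun hAB =>
    restL_mono E hE (p.map_mono hAB)
  set Cd : S.L := dg (Zh H f s) (w * s + a) ⊔ (H.κ s ⊔
    (dg H.t (s + b) ⊔ dg H.y (s + b) ⊔ dg (Rh H f s) (w1 * s + b))) with hCd
  have f1 : h (restL E hE (p.map (dg (Zh H f s) (w * s + b')))) (restL E hE (p.map Cd)) ≤ (1 - ρ) * (b' - a) := by
    refine (h_anti (kk ?_)).trans key
    exact sup_le_sup_left (sup_le_sup_left (sup_le_sup (sup_le_sup (dg_mono _ (by linarith)) (dg_mono _ (by linarith)))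
      (dg_mono _ (by linarith))) _) _
  have f2 : h (restL E hE (p.map (dg (Zh H f s) (w * s + b)))) (restL E hE (p.map (dg (Zh H f s) (w * s + b')))) ≤
      b - b' := by
    refine (Helper62.UR.h_dg_rest p E hE _ (by linarith)).trans (le_of_eq (by ring))
  have f3 := h_triangle' (restL E hE (p.map (dg (Zh H f s) (w * s + b))))
    (restL E hE (p.map (dg (Zh H f s) (w * s + b')))) (restL E hE (p.map Cd))
  have f4 : (1 - ρ) * (b' - a) ≤ (1 - ρ) * (b - a) + C * η := by
    have g1 : -C ≤ 1 - ρ := neg_abs_le _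
    have g2 : 0 ≤ b - b' := by linarith
    nlinarith
  linarith

end

end Pool.Agent.Helper90.ZM2
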